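import Pool.Agent.Lib.SRH.Impl

/-! One move of the cloning game is played in a batch of real rounds. -/

namespace Pool.Agent.Lib.SRH

open Finset

variable {V : Type} (E : Finset (Finset V)) {k n L : ℕ}

theorem batch_core (hn : 0 < n) {h : List (Rd k Ent)} {H : List (Rd k (Fin n))}
    {φ φ₁ : ℕ × Fin L → Fin n} {ψ : ℕ → Fin L} (hI : Impl h H φ ψ)
    {e : Rd k Ent} (he : Fresh h e) (h1 : ∀ v ∈ rows h, ∀ j, φ₁ (v, j) = φ (v, j))
    (hi : Set.InjOn φ₁ (((rows (e :: h)).erase e.1.1) ×ˢ (univ : Finset (Fin L)) : Finset _))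
    (hL : h.length + 1 < L) (ev : ℕ → Rd k Ent) (hev : ∀ v ∈ rows h, Hit h v (ev v))
    (hc : (k + 1) * (h.length + 1) * L ≤ n) (X Z α ρ : ℝ) (Y : ℕ → ℝ) (R0 S : ℕ)
    (hX : ∀ (H' : List (Rd k (Fin n))) (φ' : ℕ × Fin L → Fin n) (ψ' : ℕ → Fin L),
      Impl (e :: h) H' φ' ψ' → X ≤ bell E R0 H')
    (hY : ∀ v ∈ rows h, ∀ (H' : List (Rd k (Fin n))) (φ' : ℕ × Fin L → Fin n) (ψ' : ℕ → Fin L),
      Impl (ev v :: h) H' φ' ψ' → Y v ≤ bell E R0 H')
    (hX1 : X ≤ 1) (hα : α * n = (rows h).card * ((L - (h.length + 1) : ℕ) : ℝ))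
    (hZ : α * Z * n = ((L - (h.length + 1) : ℕ) : ℝ) * ∑ v ∈ rows h, Y v)
    (hρ : ((rows h).card * (h.length + 1) + (k + 2) * L : ℝ) ≤ ρ * n) :
    ∀ (r i w : ℕ) (χ : Fin L → Fin n) (H' : List (Rd k (Fin n))), i ≤ L →
      (i < L → L - i + S ≤ r + w) → (∀ x ∈ H, x ∈ H') → Set.InjOn χ {j | j.val < i} →
      (∀ j : Fin L, j.val < i →
        χ j ∉ (((rows (e :: h)).erase e.1.1) ×ˢ (univ : Finset (Fin L))).image φ₁) →
      (∀ j : Fin L, j.val < i → edgeAt e φ₁ ψ (χ j) j ∈ H') →
      (1 - α) ^ r * X + (1 - (1 - α) ^ r) * Z - (w + r * ρ) / (S + 1) ≤ bell E (r + R0) H' := by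
  have hnR : (0 : ℝ) < n := by exact_mod_cast hn
  have hρ0 : 0 ≤ ρ := by
    have : (0 : ℝ) ≤ ρ * n := le_trans (by positivity) hρ
    exact nonneg_of_mul_nonneg_left this hnR
  have hS : (0 : ℝ) < S + 1 := by positivity
  intro r
  induction r with
  | zero =>
    intro i w χ H' hiL hw hH hχ hav hE
    simp only [pow_zero, one_mul, sub_self, zero_mul, add_zero, Nat.cast_zero, zero_add]
    rcases hiL.eq_or_lt with rfl | hlt
    · obtain ⟨φ', ψ', hI'⟩ := hI.fresh hH he h1 hi χ
        (fun a b hab => hχ a.2 b.2 hab) (fun j => hav j j.2) (fun j => hE j j.2) hL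
      have := hX H' φ' ψ' hI'
      have h2 : (0 : ℝ) ≤ w / (S + 1) := by positivity
      linarith
    · have h2 : S + 1 ≤ w := by have := hw hlt; omega
      have h3 : (1 : ℝ) ≤ w / (S + 1) := by
        rw [le_div_iff₀ hS, one_mul]; exact_mod_cast h2
      have := bell_nonneg E R0 H'
      linarith
  | succ r ih =>
    intro i w χ H' hiL hw hH hχ hav hE
    set R₁ := (rows (e :: h)).erase e.1.1 with hR₁
    set U : Finset (Fin L) := univ \ (range (h.length + 1)).image ψ with hU
    have hUc : U.card = L - (h.length + 1) := by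
      rw [hU, card_univ_sdiff, card_image_of_injOn hI.pinj]; simp
    set P : Finset (ℕ × Fin L) := rows h ×ˢ U with hP
    set W : Finset (Fin n) := (rows h ×ˢ (range (h.length + 1)).image ψ).image φ₁ ∪
      ((R₁ \ rows h) ×ˢ (univ : Finset (Fin L))).image φ₁ ∪ univ.image χ with hW
    have hWc : (W.card : ℝ) ≤ ρ * n := by
      refine le_trans ?_ hρ
      have a1 : ((rows h ×ˢ (range (h.length + 1)).image ψ).image φ₁).card
          ≤ (rows h).card * (h.length + 1) := by
        refine card_image_le.trans ?_
        rw [card_product]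
        exact Nat.mul_le_mul_left _ (card_image_le.trans (by simp))
      have a2 : (((R₁ \ rows h) ×ˢ (univ : Finset (Fin L))).image φ₁).card ≤ (k + 1) * L := by
        refine card_image_le.trans ?_
        rw [card_product, card_univ, Fintype.card_fin]
        refine Nat.mul_le_mul_right _ (le_trans (card_le_card ?_)
          ((card_image_le (s := verts e) (f := Prod.fst)).trans (card_verts e)))
        intro v hv
        simp only [hR₁, rows, mem_sdiff, mem_erase, mem_union] at hv
        tauto
      have a3 : (univ.image χ).card ≤ L := card_image_le.trans (by simp)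
      have a4 : W.card ≤ (rows h).card * (h.length + 1) + (k + 2) * L := by
        refine (card_union_le _ _).trans ?_
        have := card_union_le ((rows h ×ˢ (range (h.length + 1)).image ψ).image φ₁)
          (((R₁ \ rows h) ×ˢ (univ : Finset (Fin L))).image φ₁)
        nlinarith
      exact_mod_cast a4
    set G : ℝ := (1 - α) ^ r * X + (1 - (1 - α) ^ r) * Z with hG
    set pen : ℝ := (w + r * ρ) / (S + 1) with hpen
    have hpen0 : 0 ≤ pen := by positivity
    have key := le_bell_succ E (r := r + R0) (h := H')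
      (fun u => (∑ p ∈ P, if φ p = u then Y p.1 - G else 0) + (G - pen)
        - if u ∈ W then 1 / (S + 1 : ℝ) else 0) (by
      intro u
      have hW0 : (0 : ℝ) ≤ if u ∈ W then 1 / (S + 1 : ℝ) else 0 := by
        split_ifs <;> positivity
      by_cases hu : ∃ p ∈ P, φ p = u
      · obtain ⟨⟨v, j⟩, hp, rfl⟩ := hu
        have hp' := mem_product.1 hp
        have hj : j ∉ (range (h.length + 1)).image ψ := (mem_sdiff.1 hp'.2).2
        obtain ⟨y, φ', ψ', hI'⟩ := hI.hit hH hp'.1 hj (hev v hp'.1) (by
          refine le_trans (Nat.mul_le_mul_right _ ?_) hc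
          simpa using card_rows (ev v :: h))
        refine ⟨y, ?_⟩
        have h2 := (hY v hp'.1 _ φ' ψ' hI').trans (bell_mono E hn (Nat.le_add_left R0 r) _)
        have h3 : (∑ p ∈ P, if φ p = φ (v, j) then Y p.1 - G else 0) = Y v - G := by
          rw [sum_eq_single_of_mem (v, j) hp]
          · simp
          · intro p hp2 hne
            rw [if_neg]
            intro hpp
            exact hne (hI.inj (by simp [(mem_product.1 hp2).1]) (by simp [hp'.1]) hpp)
        simp only [h3]
        linarith
      · have h3 : (∑ p ∈ P, if φ p = u then Y p.1 - G else 0) = 0 :=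
          sum_eq_zero fun p hp => if_neg fun hpp => hu ⟨p, hp, hpp⟩
        simp only [h3, zero_add]
        have hcons : ∀ (y : Fin k → Fin n), ∀ x ∈ H', x ∈ ((u, y) : Rd k (Fin n)) :: H' :=
          fun y x hx => List.mem_cons_of_mem _ hx
        by_cases huW : u ∈ W
        · refine ⟨fun _ => u, ?_⟩
          have := ih i (w + 1) χ ((u, fun _ => u) :: H') hiL (fun hl => by have := hw hl; omega)
            (fun x hx => hcons _ x (hH x hx)) hχ hav (fun j hj => hcons _ _ (hE j hj))
          rw [if_pos huW]
          refine le_trans (le_of_eq ?_) this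
          rw [hpen]; push_cast; ring
        · rw [if_neg huW, sub_zero]
          rcases hiL.eq_or_lt with hiL' | hlt
          · refine ⟨fun _ => u, ?_⟩
            exact ih i w χ ((u, fun _ => u) :: H') hiL (fun hl => absurd hl (by omega))
              (fun x hx => hcons _ x (hH x hx)) hχ hav (fun j hj => hcons _ _ (hE j hj))
          · have hu1 : u ∉ (R₁ ×ˢ (univ : Finset (Fin L))).image φ₁ := by
              intro hm
              obtain ⟨⟨v, j⟩, hp, rfl⟩ := mem_image.1 hm
              by_cases hv : v ∈ rows h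
              · by_cases hj : j ∈ (range (h.length + 1)).image ψ
                · exact huW (mem_union_left _ (mem_union_left _
                    (mem_image_of_mem _ (mem_product.2 ⟨hv, hj⟩))))
                · exact hu ⟨(v, j), mem_product.2 ⟨hv, mem_sdiff.2 ⟨mem_univ _, hj⟩⟩,
                    (h1 v hv j).symm⟩
              · exact huW (mem_union_left _ (mem_union_right _ (mem_image_of_mem _
                  (mem_product.2 ⟨mem_sdiff.2 ⟨(mem_product.1 hp).1, hv⟩, mem_univ _⟩))))
            have hu2 : ∀ j, χ j ≠ u := fun j hj =>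
              huW (mem_union_right _ (mem_image.2 ⟨j, mem_univ _, hj⟩))
            let j₀ : Fin L := ⟨i, hlt⟩
            have hup : ∀ j : Fin L, j.val < i → Function.update χ j₀ u j = χ j := fun j hj =>
              Function.update_of_ne (fun h0 => by rw [h0] at hj; exact lt_irrefl _ hj) _ _
            have hcase : ∀ j : Fin L, j.val < i + 1 → j = j₀ ∨ j.val < i := fun j hj => by
              rcases Nat.lt_succ_iff_lt_or_eq.1 hj with h0 | h0
              · exact Or.inr h0
              · exact Or.inl (Fin.ext h0)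
            refine ⟨(edgeAt e φ₁ ψ u j₀).2, ?_⟩
            refine ih (i + 1) w (Function.update χ j₀ u) _ hlt
              (fun hl => by have := hw hlt; omega) (fun x hx => hcons _ x (hH x hx)) ?_ ?_ ?_
            · intro a ha b hb hab
              rcases hcase a ha with rfl | ha' <;> rcases hcase b hb with rfl | hb'
              · rfl
              · rw [Function.update_self, hup b hb'] at hab
                exact absurd hab.symm (hu2 b)
              · rw [Function.update_self, hup a ha'] at hab
                exact absurd hab (hu2 a)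
              · rw [hup a ha', hup b hb'] at hab
                exact hχ ha' hb' hab
            · intro j hj
              rcases hcase j hj with rfl | hj'
              · rwa [Function.update_self]
              · rw [hup j hj']; exact hav j hj'
            · intro j hj
              rcases hcase j hj with rfl | hj'
              · rw [Function.update_self]; exact List.mem_cons_self
              · rw [hup j hj']; exact hcons _ _ (hE j hj'))
    rw [show r + 1 + R0 = r + R0 + 1 by omega]
    refine le_trans ?_ key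
    rw [le_div_iff₀ hnR, sum_sub_distrib, sum_add_distrib, sum_comm]
    have s1 : ∑ p ∈ P, ∑ u : Fin n, (if φ p = u then Y p.1 - G else 0)
        = ((L - (h.length + 1) : ℕ) : ℝ) * (∑ v ∈ rows h, Y v) - α * n * G := by
      simp only [sum_ite_eq, mem_univ, if_true]
      rw [hP, sum_product]
      simp only [sum_const, nsmul_eq_mul, hUc]
      rw [← mul_sum, sum_sub_distrib, sum_const, nsmul_eq_mul, hα]
      ring
    have s2 : ∑ u : Fin n, (if u ∈ W then 1 / (S + 1 : ℝ) else 0) = W.card / (S + 1) := by
      rw [sum_ite_mem, univ_inter, sum_const, nsmul_eq_mul]; ring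
    rw [s1, s2, sum_const, card_univ, Fintype.card_fin, nsmul_eq_mul, ← hZ]
    have s3 : (W.card : ℝ) / (S + 1) ≤ ρ * n / (S + 1) := div_le_div_of_nonneg_right hWc hS.le
    have s4 : ((1 - α) ^ (r + 1) * X + (1 - (1 - α) ^ (r + 1)) * Z
        - ((w : ℝ) + ((r + 1 : ℕ) : ℝ) * ρ) / (S + 1)) * n
        = α * Z * n - α * n * G + n * (G - pen) - ρ * n / (S + 1) := by
      rw [hG, hpen]; push_cast; ring
    rw [s4]
    linarith

/-- Main simulation: `N` batches of `L + S` real rounds play the cloning game. -/
theorem val_le_bell [Fintype V] (hn : 0 < n) {q κ : ℝ} (hq : 0 ≤ q) (N S : ℕ)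
    (hL : N + 1 + Fintype.card V ≤ L) (hc : ((k + 1) * N + Fintype.card V) * L ≤ n)
    (hκ : ∀ A ≤ (k + 1) * N, ∀ t < N,
      |(1 - (A : ℝ) * ((L - (t + 1) : ℕ) : ℝ) / n) ^ (L + S) - Real.exp (-(A * q))| +
        (L + S : ℕ) * (((k + 1) * N * N + (k + 2) * L : ℝ) / n) / (S + 1) ≤ κ) :
    ∀ (r : ℕ) (h : List (Rd k Ent)) (H : List (Rd k (Fin n))) (φ : ℕ × Fin L → Fin n)
      (ψ : ℕ → Fin L), h.length + r = N → Impl h H φ ψ →
      val E q r h - r * κ ≤ bell E (r * (L + S)) H := by
  have hnR : (0 : ℝ) < n := by exact_mod_cast hn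
  intro r
  induction r with
  | zero =>
    intro h H φ ψ hN hI
    simp only [val, Nat.cast_zero, zero_mul, sub_zero, bell]
    have hr := card_rows h
    split_ifs with h1 h2
    · exact le_rfl
    · refine absurd (hI.win E h1 (le_trans (Nat.mul_le_mul_right _ ?_) hc) (by omega)) h2
      simp only [add_zero] at hN
      rw [hN] at hr
      omega
    · norm_num
    · exact le_rfl
  | succ r ih =>
    intro h H φ ψ hN hI
    have ht : h.length < N := by omega
    have hA : (rows h).card ≤ (k + 1) * N :=
      (card_rows h).trans (Nat.mul_le_mul_left _ ht.le)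
    have hc1 : (k + 1) * (h.length + 1) * L ≤ n :=
      le_trans (Nat.mul_le_mul_right _ (le_trans (Nat.mul_le_mul_left _ ht) (by omega))) hc
    refine le_of_forall_pos_le_add fun δ hδ => ?_
    set PF := ⨆ e : {e // Fresh h e}, val E q r (e.1 :: h) with hPF
    obtain ⟨e, he⟩ := exists_lt_of_lt_ciSup (f := fun e : {e // Fresh h e} => val E q r (e.1 :: h))
      (sub_lt_self PF hδ)
    have hev : ∀ v, ∃ e : {e // Hit h v e},
        (⨆ e : {e // Hit h v e}, val E q r (e.1 :: h)) - δ < val E q r (e.1 :: h) := fun v =>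
      exists_lt_of_lt_ciSup (f := fun e : {e // Hit h v e} => val E q r (e.1 :: h))
        (sub_lt_self _ hδ)
    choose ev hev using hev
    obtain ⟨φ₁, h1, hi⟩ := ext_phi (rows h) ((rows (e.1 :: h)).erase e.1.1.1) φ hI.inj
      (fun v hv => mem_erase.2 ⟨fun h0 => e.2.2.1 (h0 ▸ hv), mem_union_right _ hv⟩)
      (le_trans (Nat.mul_le_mul_right _ (card_erase_le.trans
        (by simpa using card_rows (e.1 :: h)))) hc1)
    set A : ℝ := ((rows h).card : ℝ) with hAdef
    have hA0 : 0 ≤ A := Nat.cast_nonneg _
    set u : ℝ := ((L - (h.length + 1) : ℕ) : ℝ) with hu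
    set SH := ∑ v ∈ rows h, ⨆ e : {e // Hit h v e}, val E q r (e.1 :: h) with hSH
    have hκ0 : 0 ≤ κ := le_trans (by positivity) (hκ 0 (Nat.zero_le _) _ ht)
    have core := batch_core E hn hI e.2 h1 hi (by omega) (fun v => (ev v).1)
      (fun v _ => (ev v).2) hc1 (PF - δ - r * κ) (SH / A - δ - r * κ) (A * u / n)
      (((k + 1) * N * N + (k + 2) * L : ℝ) / n)
      (fun v => (⨆ e : {e // Hit h v e}, val E q r (e.1 :: h)) - δ - r * κ) (r * (L + S)) S
      (fun H' φ' ψ' hI' => by
        have := ih _ H' φ' ψ' (by simp; omega) hI'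
        linarith)
      (fun v _ H' φ' ψ' hI' => by
        have := ih _ H' φ' ψ' (by simp; omega) hI'
        have := hev v
        linarith)
      (by
        have : PF ≤ 1 := ciSup_le fun e => (val_mem E hq r _).2
        have : 0 ≤ r * κ := by positivity
        linarith)
      (div_mul_cancel₀ _ hnR.ne')
      (by
        rw [sum_sub_distrib, sum_sub_distrib, ← hSH]
        simp only [sum_const, nsmul_eq_mul, ← hAdef, ← hu]
        rcases hA0.eq_or_lt with h0 | h0
        · have : rows h = ∅ := card_eq_zero.1 (by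
            have := h0.symm; rw [hAdef] at this; exact_mod_cast this)
          simp [← h0, hSH, this]
        · field_simp)
      (by
        rw [div_mul_cancel₀ _ hnR.ne']
        have a1 : (A : ℝ) ≤ (k + 1) * N := by rw [hAdef]; exact_mod_cast hA
        have a2 : (h.length + 1 : ℝ) ≤ N := by exact_mod_cast ht
        have := mul_le_mul a1 a2 (by positivity) (by positivity)
        linarith)
      (L + S) 0 0 (fun _ => ⟨0, hn⟩) H (Nat.zero_le _) (fun _ => by omega) (fun _ hx => hx)
      (fun a ha => absurd ha (Nat.not_lt_zero _)) (fun j hj => absurd hj (Nat.not_lt_zero _))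
      (fun j hj => absurd hj (Nat.not_lt_zero _))
    rw [show L + S + r * (L + S) = (r + 1) * (L + S) by ring] at core
    have hk := hκ _ hA _ ht
    rw [← hAdef, ← hu] at hk
    set a' := (1 - A * u / n) ^ (L + S) with ha'
    set a := Real.exp (-(A * q)) with ha
    have hPF0 : 0 ≤ PF := Real.iSup_nonneg fun e => (val_mem E hq r _).1
    have hPF1 : PF ≤ 1 := ciSup_le fun e => (val_mem E hq r _).2
    have hQ0 : 0 ≤ SH / A :=
      div_nonneg (sum_nonneg fun v _ => Real.iSup_nonneg fun e => (val_mem E hq r _).1) hA0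
    have hQ1 : SH / A ≤ 1 := by
      refine div_le_one_of_le₀ ?_ hA0
      calc SH ≤ ∑ v ∈ rows h, (1 : ℝ) := sum_le_sum fun v _ => ciSup_le fun e => (val_mem E hq r _).2
        _ = A := by simp [hAdef]
    have hv : val E q (r + 1) h = a * PF + (1 - a) * (SH / A) := by
      simp only [val]
      rw [← hAdef, ← ha, ← hPF, ← hSH]
      ring
    have hd : (a - a') * (PF - SH / A) ≤ |a' - a| := by
      calc _ ≤ |(a - a') * (PF - SH / A)| := le_abs_self _
        _ = |a' - a| * |PF - SH / A| := by rw [abs_mul, abs_sub_comm]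
        _ ≤ |a' - a| * 1 := mul_le_mul_of_nonneg_left (abs_le.2 ⟨by linarith, by linarith⟩)
            (abs_nonneg _)
        _ = _ := mul_one _
    rw [hv]
    simp only [Nat.cast_zero, zero_add] at core
    push_cast at core hk ⊢
    nlinarith

end Pool.Agent.Lib.SRH
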