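import Pool.Agent.Lib.SRH.Defs

/-! Backward induction for the process; basic facts on the cloning game. -/

namespace Pool.Agent.Lib.SRH

open Finset

variable {V : Type} (E : Finset (Finset V)) {k n : ℕ}

/-- The real hypergraph of a history contains the target. -/
def Win (h : List (Rd k (Fin n))) : Prop := Has E {x | ∃ e ∈ h, x = verts e}

open Classical in
/-- Optimal value with `r` rounds left. -/
noncomputable def bell : ℕ → List (Rd k (Fin n)) → ℝ
  | 0, h => if Win E h then 1 else 0
  | r + 1, h =>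
      (∑ u, univ.sup' ⟨fun _ => u, mem_univ _⟩ fun y : Fin k → Fin n => bell r ((u, y) :: h)) / n

theorem succProb_le_bell (S : Strategy k n) :
    ∀ (r : ℕ) (h : List (Rd k (Fin n))), succProb E S r h ≤ bell E r h
  | 0, h => by simp only [succProb, bell, Win]; exact le_of_eq (by congr)
  | r + 1, h => by
    simp only [succProb, bell]
    refine div_le_div_of_nonneg_right (sum_le_sum fun u _ => ?_) (Nat.cast_nonneg _)
    calc ∑ y, S.w h u y * succProb E S r ((u, y) :: h)
        ≤ ∑ y, S.w h u y * univ.sup' ⟨fun _ => u, mem_univ _⟩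
            fun y : Fin k → Fin n => bell E r ((u, y) :: h) := by
          refine sum_le_sum fun y _ => mul_le_mul_of_nonneg_left ?_ (S.nonneg _ _ _)
          exact (succProb_le_bell S r _).trans
            (le_sup' (fun y : Fin k → Fin n => bell E r ((u, y) :: h)) (mem_univ y))
      _ = _ := by rw [← sum_mul, S.sum_one, one_mul]

theorem exists_best (N : ℕ) : ∃ σ : List (Rd k (Fin n)) → Fin n → Fin k → Fin n,
    ∀ (r : ℕ) (h : List (Rd k (Fin n))), h.length + (r + 1) = N →
      bell E (r + 1) h = (∑ u, bell E r ((u, σ h u) :: h)) / n := by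
  have key : ∀ (h : List (Rd k (Fin n))) (u : Fin n), ∃ y : Fin k → Fin n,
      (univ.sup' ⟨fun _ => u, mem_univ _⟩
        fun y : Fin k → Fin n => bell E (N - h.length - 1) ((u, y) :: h))
        = bell E (N - h.length - 1) ((u, y) :: h) := by
    intro h u
    obtain ⟨y, -, hy⟩ := exists_mem_eq_sup' ⟨fun _ => u, mem_univ _⟩
      (fun y : Fin k → Fin n => bell E (N - h.length - 1) ((u, y) :: h))
    exact ⟨y, hy⟩
  choose b hb using key
  refine ⟨b, fun r h hh => ?_⟩
  simp only [bell]
  congr 1
  refine sum_congr rfl fun u _ => ?_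
  have hr : N - h.length - 1 = r := by omega
  have := hb h u
  rw [hr] at this
  exact this

theorem optProb_eq (k n t : ℕ) : optProb E k n t = bell E t ([] : List (Rd k (Fin n))) := by
  classical
  obtain ⟨b, hb⟩ := exists_best E (k := k) (n := n) t
  let S : Strategy k n := ⟨fun h u y => if y = b h u then 1 else 0,
    fun h u y => by split_ifs <;> norm_num, fun h u => by simp⟩
  have hS : ∀ (r : ℕ) (h : List (Rd k (Fin n))), h.length + r = t →
      succProb E S r h = bell E r h := by
    intro r
    induction r with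
    | zero => intro h _; simp [succProb, bell, Win]
    | succ r ih =>
      intro h hh
      rw [hb r h hh]
      simp only [succProb, S]
      congr 1
      refine sum_congr rfl fun u _ => ?_
      simp only [ite_mul, one_mul, zero_mul, sum_ite_eq', mem_univ, if_true]
      exact ih _ (by simp; omega)
  have h1 := hS t [] (by simp)
  have hb : ∀ S : Strategy k n, succProb E S t [] ≤ bell E t ([] : List (Rd k (Fin n))) :=
    fun S => succProb_le_bell E S t []
  have : Nonempty (Strategy k n) := ⟨S⟩
  refine le_antisymm (ciSup_le hb) ?_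
  rw [← h1]
  exact le_ciSup (f := fun S : Strategy k n => succProb E S t []) ⟨_, by
    rintro _ ⟨S, rfl⟩; exact hb S⟩ S

theorem le_bell_succ {r : ℕ} {h : List (Rd k (Fin n))} (F : Fin n → ℝ)
    (hF : ∀ u, ∃ y, F u ≤ bell E r ((u, y) :: h)) : (∑ u, F u) / n ≤ bell E (r + 1) h := by
  simp only [bell]
  refine div_le_div_of_nonneg_right (sum_le_sum fun u _ => ?_) (Nat.cast_nonneg _)
  obtain ⟨y, hy⟩ := hF u
  exact hy.trans (le_sup' (fun y : Fin k → Fin n => bell E r ((u, y) :: h)) (mem_univ y))

theorem bell_nonneg : ∀ (r : ℕ) (h : List (Rd k (Fin n))), 0 ≤ bell E r h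
  | 0, h => by simp only [bell]; split_ifs <;> norm_num
  | r + 1, h => by
    have := le_bell_succ E (r := r) (h := h) (fun _ => 0) fun u => ⟨fun _ => u, bell_nonneg r _⟩
    simpa using this

theorem Win.mono {h h' : List (Rd k (Fin n))} (hw : Win E h) (hs : ∀ e ∈ h, e ∈ h') :
    Win E h' := by
  obtain ⟨f, hf⟩ := hw
  refine ⟨f, fun g hg => ?_⟩
  obtain ⟨e, he, hx⟩ := hf g hg
  exact ⟨e, hs e he, hx⟩

theorem bell_le_cons : ∀ (r : ℕ) (h h' : List (Rd k (Fin n))), (∀ e ∈ h, e ∈ h') →
    bell E r h ≤ bell E r h'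
  | 0, h, h', hs => by
    simp only [bell]
    by_cases hw : Win E h
    · rw [if_pos hw, if_pos (hw.mono E hs)]
    · rw [if_neg hw]; split_ifs <;> norm_num
  | r + 1, h, h', hs => by
    simp only [bell]
    refine div_le_div_of_nonneg_right (sum_le_sum fun u _ => ?_) (Nat.cast_nonneg _)
    refine sup'_le _ _ fun y _ => ?_
    refine (bell_le_cons r ((u, y) :: h) ((u, y) :: h') ?_).trans
      (le_sup' (fun y : Fin k → Fin n => bell E r ((u, y) :: h')) (mem_univ y))
    intro e he
    rcases List.mem_cons.1 he with rfl | he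
    · exact List.mem_cons_self
    · exact List.mem_cons_of_mem _ (hs e he)

theorem bell_le_succ (hn : 0 < n) (r : ℕ) (h : List (Rd k (Fin n))) :
    bell E r h ≤ bell E (r + 1) h := by
  have := le_bell_succ E (r := r) (h := h) (fun _ => bell E r h) fun u =>
    ⟨fun _ => u, bell_le_cons E r _ _ fun e he => List.mem_cons_of_mem _ he⟩
  have hn' : (n : ℝ) ≠ 0 := by positivity
  simpa [hn'] using this

theorem bell_mono (hn : 0 < n) {r r' : ℕ} (hr : r ≤ r') (h : List (Rd k (Fin n))) :
    bell E r h ≤ bell E r' h := by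
  induction hr with
  | refl => exact le_rfl
  | step _ ih => exact ih.trans (bell_le_succ E hn _ h)

/-! ### The cloning game -/

/-- The cloned hypergraph contains the target. -/
def GWin (h : List (Rd k Ent)) : Prop :=
  Has E {x | ∃ e ∈ h, ∃ j, x = (verts e).image (inst j)}

theorem mem_verts {α : Type} [DecidableEq α] {e : Rd k α} {x : α} :
    x ∈ verts e ↔ x = e.1 ∨ ∃ i, e.2 i = x := by
  simp [verts]

theorem card_verts {α : Type} [DecidableEq α] (e : Rd k α) : (verts e).card ≤ k + 1 := by
  refine (card_insert_le _ _).trans ?_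
  have := card_image_le (s := (univ : Finset (Fin k))) (f := e.2)
  simpa using this

theorem card_rows (h : List (Rd k Ent)) : (rows h).card ≤ (k + 1) * h.length := by
  induction h with
  | nil => simp [rows]
  | cons e h ih =>
    simp only [rows, List.length_cons]
    refine (card_union_le _ _).trans ?_
    have := (card_image_le (s := verts e) (f := Prod.fst)).trans (card_verts e)
    nlinarith

theorem mem_rows {h : List (Rd k Ent)} {e : Rd k Ent} (he : e ∈ h) {x : Ent} (hx : x ∈ verts e) :
    x.1 ∈ rows h := by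
  induction h with
  | nil => simp at he
  | cons a h ih =>
    simp only [rows, mem_union]
    rcases List.mem_cons.1 he with rfl | he
    · exact Or.inl (mem_image_of_mem _ hx)
    · exact Or.inr (ih he)

instance freshNe (h : List (Rd k Ent)) : Nonempty {e // Fresh h e} := by
  obtain ⟨v, hv⟩ := Infinite.exists_notMem_finset (rows h)
  exact ⟨⟨((v, none), fun _ => (v, none)), rfl, hv, fun i a ha => by simp at ha⟩⟩

instance hitNe (h : List (Rd k Ent)) (v : ℕ) : Nonempty {e // Hit h v e} :=
  ⟨⟨((v, some (h.length + 1)), fun _ => (v, some 0)), rfl, fun _ => ⟨0, Nat.zero_le _, rfl⟩⟩⟩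

theorem val_mem {q : ℝ} (hq : 0 ≤ q) :
    ∀ (r : ℕ) (h : List (Rd k Ent)), 0 ≤ val E q r h ∧ val E q r h ≤ 1
  | 0, h => by simp only [val]; split_ifs <;> norm_num
  | r + 1, h => by
    simp only [val]
    set A : ℝ := ((rows h).card : ℝ) with hA
    have hA0 : 0 ≤ A := Nat.cast_nonneg _
    have he1 : Real.exp (-(A * q)) ≤ 1 := Real.exp_le_one_iff.2 (by nlinarith [mul_nonneg hA0 hq])
    have he0 : 0 < Real.exp (-(A * q)) := Real.exp_pos _
    have h1 : 0 ≤ ⨆ e : {e // Fresh h e}, val E q r (e.1 :: h) :=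
      Real.iSup_nonneg fun e => (val_mem hq r _).1
    have h2 : (⨆ e : {e // Fresh h e}, val E q r (e.1 :: h)) ≤ 1 :=
      ciSup_le fun e => (val_mem hq r _).2
    have h3 : 0 ≤ ∑ v ∈ rows h, ⨆ e : {e // Hit h v e}, val E q r (e.1 :: h) :=
      sum_nonneg fun v _ => Real.iSup_nonneg fun e => (val_mem hq r _).1
    have h4 : ∑ v ∈ rows h, (⨆ e : {e // Hit h v e}, val E q r (e.1 :: h)) ≤ A := by
      calc _ ≤ ∑ v ∈ rows h, (1 : ℝ) := sum_le_sum fun v _ => ciSup_le fun e => (val_mem hq r _).2
        _ = A := by simp [hA]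
    have h5 : 0 ≤ (1 - Real.exp (-(A * q))) / A := div_nonneg (by linarith) hA0
    refine ⟨by positivity, ?_⟩
    have h6 : (1 - Real.exp (-(A * q))) / A * A ≤ 1 - Real.exp (-(A * q)) := by
      rcases hA0.eq_or_lt with h0 | h0
      · rw [← h0]; simp
      · rw [div_mul_cancel₀ _ h0.ne']
    nlinarith [mul_le_mul_of_nonneg_left h4 h5, mul_le_mul_of_nonneg_left h2 he0.le]

theorem bdd_fresh {q : ℝ} (hq : 0 ≤ q) (r : ℕ) (h : List (Rd k Ent)) :
    BddAbove (Set.range fun e : {e // Fresh h e} => val E q r (e.1 :: h)) :=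
  ⟨1, by rintro _ ⟨e, rfl⟩; exact (val_mem E hq r _).2⟩

theorem bdd_hit {q : ℝ} (hq : 0 ≤ q) (r : ℕ) (h : List (Rd k Ent)) (v : ℕ) :
    BddAbove (Set.range fun e : {e // Hit h v e} => val E q r (e.1 :: h)) :=
  ⟨1, by rintro _ ⟨e, rfl⟩; exact (val_mem E hq r _).2⟩

end Pool.Agent.Lib.SRH
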