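import Mathlib

/-! The semi-random `s`-uniform process (`r = 1`, `s = k + 1`) and the cloning game. -/

namespace Pool.Agent.Lib.SRH

open Finset

/-- A round: the drawn vertex (head) and the `k = s - 1` vertices chosen by the player. -/
abbrev Rd (k : ℕ) (α : Type) : Type := α × (Fin k → α)

/-- The set of vertices of the edge added in a round. -/
def verts {k : ℕ} {α : Type} [DecidableEq α] (e : Rd k α) : Finset α :=
  insert e.1 (univ.image e.2)

/-- The hypergraph with edge set `H` contains a copy of the hypergraph `(V, E)`. -/
def Has {V α : Type} (E : Finset (Finset V)) (H : Set (Finset α)) : Prop :=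
  ∃ f : V ↪ α, ∀ g ∈ E, g.map f ∈ H

/-- A randomised strategy on `[n]`: for every history (newest round first) and drawn vertex `u`
a probability distribution of the `k` chosen vertices. -/
structure Strategy (k n : ℕ) where
  w : List (Rd k (Fin n)) → Fin n → (Fin k → Fin n) → ℝ
  nonneg : ∀ h u y, 0 ≤ w h u y
  sum_one : ∀ h u, ∑ y, w h u y = 1

open Classical in
/-- Probability of containing a copy of `(V, E)` after `r` further rounds from the history `h`. -/
noncomputable def succProb {V : Type} (E : Finset (Finset V)) {k n : ℕ} (S : Strategy k n) :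
    ℕ → List (Rd k (Fin n)) → ℝ
  | 0, h => if Has E {x | ∃ e ∈ h, x = verts e} then 1 else 0
  | r + 1, h => (∑ u, ∑ y, S.w h u y * succProb E S r ((u, y) :: h)) / n

/-- Success probability of an optimal strategy after `t` rounds on `[n]`. -/
noncomputable def optProb {V : Type} (E : Finset (Finset V)) (k n t : ℕ) : ℝ :=
  ⨆ S : Strategy k n, succProb E S t []

/-- An entry of a move of the cloning game: `(v, none)` is the row `v`, read in every copy;
`(v, some a)` is the single vertex `(v, a)`. -/
abbrev Ent : Type := ℕ × Option ℕ

/-- The vertex of `ℕ × ℕ` (row, copy) that an entry names in copy `j`. -/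
def inst (j : ℕ) (x : Ent) : ℕ × ℕ := (x.1, x.2.getD j)

/-- The rows mentioned so far. -/
def rows {k : ℕ} : List (Rd k Ent) → Finset ℕ
  | [] => ∅
  | e :: h => (verts e).image Prod.fst ∪ rows h

/-- Legal move of a fresh round: the head is a new row; single vertices have copy at most the
number of moves played and lie outside the head row. -/
def Fresh {k : ℕ} (h : List (Rd k Ent)) (e : Rd k Ent) : Prop :=
  e.1.2 = none ∧ e.1.1 ∉ rows h ∧
    ∀ i a, (e.2 i).2 = some a → a ≤ h.length ∧ (e.2 i).1 ≠ e.1.1

/-- Legal move when row `v` is hit: the head is the new copy `h.length + 1` of `v`, the other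
entries are single vertices with copy at most `h.length + 1`. -/
def Hit {k : ℕ} (h : List (Rd k Ent)) (v : ℕ) (e : Rd k Ent) : Prop :=
  e.1 = (v, some (h.length + 1)) ∧ ∀ i, ∃ a ≤ h.length + 1, (e.2 i).2 = some a

open Classical in
/-- Value of the cloning game with `r` rounds left: every move is an edge in every copy `j`; with
`A` rows mentioned a round is fresh with probability `exp (-A q)`, else a uniform row is hit. -/
noncomputable def val {V : Type} (E : Finset (Finset V)) {k : ℕ} (q : ℝ) :
    ℕ → List (Rd k Ent) → ℝ
  | 0, h => if Has E {x | ∃ e ∈ h, ∃ j, x = (verts e).image (inst j)} then 1 else 0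
  | r + 1, h =>
      Real.exp (-((rows h).card * q)) * (⨆ e : {e // Fresh h e}, val E q r (e.1 :: h)) +
        (1 - Real.exp (-((rows h).card * q))) / (rows h).card *
          ∑ v ∈ rows h, ⨆ e : {e // Hit h v e}, val E q r (e.1 :: h)

end Pool.Agent.Lib.SRH
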