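import Pool.Agent.Lib.SRH.Bell

/-! Realising positions of the cloning game in the process on `[n]`. -/

namespace Pool.Agent.Lib.SRH

open Finset

theorem ext_inj {α β : Type} [DecidableEq α] [Fintype β] (S : Finset α) (f : α → β)
    (hf : Set.InjOn f S) (T : Finset α) (hc : (S ∪ T).card ≤ Fintype.card β) :
    ∃ g : α → β, (∀ x ∈ S, g x = f x) ∧ Set.InjOn g ((S ∪ T : Finset α) : Set α) := by
  classical
  induction T using Finset.induction_on with
  | empty => exact ⟨f, fun _ _ => rfl, by simpa using hf⟩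
  | insert a T _ ih =>
    have hsub : S ∪ T ⊆ S ∪ insert a T := union_subset_union_right (subset_insert _ _)
    obtain ⟨g, hg, hi⟩ := ih ((card_le_card hsub).trans hc)
    by_cases ha : a ∈ S ∪ T
    · refine ⟨g, hg, ?_⟩
      rwa [union_insert, insert_eq_of_mem ha]
    · rw [union_insert, card_insert_of_notMem ha] at hc
      have hlt : ((S ∪ T).image g).card < (univ : Finset β).card :=
        lt_of_le_of_lt card_image_le (by rw [card_univ]; omega)
      obtain ⟨b, -, hb⟩ := exists_mem_notMem_of_card_lt_card hlt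
      have hne : ∀ x ∈ S ∪ T, x ≠ a := fun x hx h => ha (h ▸ hx)
      refine ⟨Function.update g a b, fun x hx => ?_, ?_⟩
      · rw [Function.update_of_ne (hne x (mem_union_left _ hx)), hg x hx]
      · rw [union_insert]
        intro x hx y hy hxy
        rw [mem_coe, mem_insert] at hx hy
        rcases hx with rfl | hx <;> rcases hy with rfl | hy
        · rfl
        · rw [Function.update_self, Function.update_of_ne (hne y hy)] at hxy
          exact absurd (mem_image.2 ⟨y, hy, hxy.symm⟩) hb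
        · rw [Function.update_self, Function.update_of_ne (hne x hx)] at hxy
          exact absurd (mem_image.2 ⟨x, hx, hxy⟩) hb
        · rw [Function.update_of_ne (hne x hx), Function.update_of_ne (hne y hy)] at hxy
          exact hi (mem_coe.2 hx) (mem_coe.2 hy) hxy

variable {V : Type} (E : Finset (Finset V)) {k n L : ℕ}

theorem ext_phi (R R' : Finset ℕ) (φ : ℕ × Fin L → Fin n)
    (hφ : Set.InjOn φ (R ×ˢ (univ : Finset (Fin L)) : Finset _)) (hsub : R ⊆ R')
    (hc : R'.card * L ≤ n) :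
    ∃ φ' : ℕ × Fin L → Fin n, (∀ v ∈ R, ∀ j, φ' (v, j) = φ (v, j)) ∧
      Set.InjOn φ' (R' ×ˢ (univ : Finset (Fin L)) : Finset _) := by
  have hu : R ×ˢ (univ : Finset (Fin L)) ∪ R' ×ˢ univ = R' ×ˢ univ :=
    union_eq_right.2 (product_subset_product_left hsub)
  obtain ⟨g, hg, hi⟩ := ext_inj _ φ hφ (R' ×ˢ (univ : Finset (Fin L))) (by
    rw [hu]; simpa using hc)
  rw [hu] at hi
  exact ⟨g, fun v hv j => hg _ (by simp [hv]), hi⟩

/-- The real vertex named by an entry in universe `j`. -/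
def rv (φ : ℕ × Fin L → Fin n) (ψ : ℕ → Fin L) (j : Fin L) (x : Ent) : Fin n :=
  φ (x.1, x.2.elim j ψ)

/-- The real history `H` realises the position `h`. -/
structure Impl (h : List (Rd k Ent)) (H : List (Rd k (Fin n))) (φ : ℕ × Fin L → Fin n)
    (ψ : ℕ → Fin L) : Prop where
  inj : Set.InjOn φ (rows h ×ˢ (univ : Finset (Fin L)) : Finset _)
  pinj : Set.InjOn ψ (range (h.length + 1) : Finset ℕ)
  bd : ∀ e ∈ h, ∀ x ∈ verts e, ∀ a, x.2 = some a → a ≤ h.length
  edge : ∀ e ∈ h, ∀ j, ∃ e' ∈ H, verts e' = (verts e).image (rv φ ψ j)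

theorem verts_map {α β : Type} [DecidableEq α] [DecidableEq β] (e : Rd k α) (F : α → β) :
    verts ((F e.1, fun i => F (e.2 i)) : Rd k β) = (verts e).image F := by
  simp only [verts, image_insert, image_image]
  rfl

theorem rv_congr {h : List (Rd k Ent)} {H : List (Rd k (Fin n))} {φ φ' : ℕ × Fin L → Fin n}
    {ψ ψ' : ℕ → Fin L} (hI : Impl h H φ ψ) (h1 : ∀ v ∈ rows h, ∀ j, φ' (v, j) = φ (v, j))
    (h2 : ∀ a ≤ h.length, ψ' a = ψ a) {e : Rd k Ent} (he : e ∈ h) (j : Fin L) :
    (verts e).image (rv φ' ψ' j) = (verts e).image (rv φ ψ j) := by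
  refine image_congr fun x hx => ?_
  have hx' : x ∈ verts e := hx
  simp only [rv]
  rw [h1 _ (mem_rows he hx')]
  rcases hx2 : x.2 with _ | a
  · rfl
  · simp only [Option.elim]
    rw [h2 a (hI.bd e he x hx' a hx2)]

theorem Impl.win [Fintype V] {h : List (Rd k Ent)} {H : List (Rd k (Fin n))}
    {φ : ℕ × Fin L → Fin n} {ψ : ℕ → Fin L} (hI : Impl h H φ ψ) (hw : GWin E h)
    (h1 : ((rows h).card + Fintype.card V) * L ≤ n) (h2 : h.length + 1 + Fintype.card V ≤ L) :
    Win E H := by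
  classical
  obtain ⟨f, hf⟩ := hw
  obtain ⟨Ψ, hΨ, hΨi⟩ := ext_inj _ ψ hI.pinj (univ.image fun x => (f x).2) (by
    refine (card_union_le _ _).trans ?_
    have := card_image_le (s := (univ : Finset V)) (f := fun x => (f x).2)
    simp only [card_range, card_univ, Fintype.card_fin] at this ⊢
    omega)
  obtain ⟨Φ, hΦ, hΦi⟩ := ext_phi (rows h) (rows h ∪ univ.image fun x => (f x).1) φ hI.inj
    subset_union_left (by
      refine le_trans (Nat.mul_le_mul_right _ ((card_union_le _ _).trans ?_)) h1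
      have := card_image_le (s := (univ : Finset V)) (f := fun x => (f x).1)
      simp only [card_univ] at this
      omega)
  let P : ℕ × ℕ → Fin n := fun p => Φ (p.1, Ψ p.2)
  have hinj : Function.Injective fun x => P (f x) := by
    intro x y hxy
    have := hΦi (x₁ := ((f x).1, Ψ (f x).2)) (x₂ := ((f y).1, Ψ (f y).2))
      (by simp) (by simp) hxy
    simp only [Prod.mk.injEq] at this
    have h3 := hΨi (x₁ := (f x).2) (x₂ := (f y).2) (by simp) (by simp) this.2
    exact f.injective (Prod.ext this.1 h3)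
  refine ⟨⟨_, hinj⟩, fun g hg => ?_⟩
  obtain ⟨e, he, j, hj⟩ := hf g hg
  obtain ⟨e', he', hv⟩ := hI.edge e he (Ψ j)
  refine ⟨e', he', ?_⟩
  rw [hv, ← rv_congr hI hΦ (fun a ha => hΨ a (mem_range.2 (by omega))) he]
  have : g.map ⟨_, hinj⟩ = (g.map f).image P := by
    rw [map_eq_image, map_eq_image, image_image]; rfl
  rw [this, hj, image_image]
  refine image_congr fun x _ => ?_
  simp only [Function.comp, P, inst, rv]
  rcases x.2 with _ | a <;> rfl

theorem pinj_update {t : ℕ} {ψ : ℕ → Fin L} (hψ : Set.InjOn ψ (range (t + 1) : Finset ℕ))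
    {j : Fin L} (hj : j ∉ (range (t + 1)).image ψ) :
    Set.InjOn (Function.update ψ (t + 1) j) (range (t + 1 + 1) : Finset ℕ) := by
  intro a ha b hb hab
  simp only [coe_range, Set.mem_Iio] at ha hb
  by_cases h1 : a = t + 1 <;> by_cases h2 : b = t + 1
  · rw [h1, h2]
  · subst h1
    rw [Function.update_self, Function.update_of_ne h2] at hab
    exact absurd (mem_image.2 ⟨b, mem_range.2 (by omega), hab.symm⟩) hj
  · subst h2
    rw [Function.update_self, Function.update_of_ne h1] at hab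
    exact absurd (mem_image.2 ⟨a, mem_range.2 (by omega), hab⟩) hj
  · rw [Function.update_of_ne h1, Function.update_of_ne h2] at hab
    exact hψ (by simp; omega) (by simp; omega) hab

theorem Impl.hit {h : List (Rd k Ent)} {H H' : List (Rd k (Fin n))}
    {φ : ℕ × Fin L → Fin n} {ψ : ℕ → Fin L} (hI : Impl h H φ ψ) (hH : ∀ x ∈ H, x ∈ H')
    {v : ℕ} (hv : v ∈ rows h) {j : Fin L} (hj : j ∉ (range (h.length + 1)).image ψ)
    {e : Rd k Ent} (he : Hit h v e) (hc : (rows (e :: h)).card * L ≤ n) :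
    ∃ (y : Fin k → Fin n) (φ' : ℕ × Fin L → Fin n) (ψ' : ℕ → Fin L),
      Impl (e :: h) ((φ (v, j), y) :: H') φ' ψ' := by
  obtain ⟨φ', h1, hi⟩ := ext_phi (rows h) (rows (e :: h)) φ hI.inj subset_union_right hc
  let ψ' := Function.update ψ (h.length + 1) j
  have h2 : ∀ a ≤ h.length, ψ' a = ψ a := fun a ha => Function.update_of_ne (by omega) _ _
  have hfix : ∀ x ∈ verts e, ∃ a ≤ h.length + 1, x.2 = some a := by
    intro x hx
    rcases mem_verts.1 hx with rfl | ⟨i, rfl⟩
    · exact ⟨_, le_rfl, by rw [he.1]⟩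
    · exact he.2 i
  refine ⟨fun i => rv φ' ψ' j (e.2 i), φ', ψ', hi, pinj_update hI.pinj hj, ?_, ?_⟩
  · intro e₀ he₀ x hx a ha
    rcases List.mem_cons.1 he₀ with rfl | he₀
    · obtain ⟨b, hb, hx2⟩ := hfix x hx
      rw [hx2] at ha
      cases ha
      simpa using hb
    · exact (hI.bd e₀ he₀ x hx a ha).trans (by simp)
  · intro e₀ he₀ j'
    rcases List.mem_cons.1 he₀ with rfl | he₀
    · refine ⟨_, List.mem_cons_self, ?_⟩
      have h3 : φ (v, j) = rv φ' ψ' j e₀.1 := by
        rw [he.1]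
        simp only [rv, Option.elim, ψ', Function.update_self]
        rw [h1 v hv]
      rw [h3, verts_map]
      refine image_congr fun x hx => ?_
      obtain ⟨b, -, hx2⟩ := hfix x hx
      simp only [rv, hx2, Option.elim]
    · obtain ⟨e', he', hv'⟩ := hI.edge e₀ he₀ j'
      exact ⟨e', List.mem_cons_of_mem _ (hH _ he'), by rw [hv', rv_congr hI h1 h2 he₀]⟩

/-- The real edge that realises the fresh move `e` in universe `j` with head `u`. -/
def edgeAt (e : Rd k Ent) (φ : ℕ × Fin L → Fin n) (ψ : ℕ → Fin L) (u : Fin n) (j : Fin L) :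
    Rd k (Fin n) :=
  (u, fun i => if (e.2 i).1 = e.1.1 then u else rv φ ψ j (e.2 i))

theorem Impl.fresh {h : List (Rd k Ent)} {H H' : List (Rd k (Fin n))}
    {φ φ₁ : ℕ × Fin L → Fin n} {ψ : ℕ → Fin L} (hI : Impl h H φ ψ) (hH : ∀ x ∈ H, x ∈ H')
    {e : Rd k Ent} (he : Fresh h e) (h1 : ∀ v ∈ rows h, ∀ j, φ₁ (v, j) = φ (v, j))
    (hi : Set.InjOn φ₁ (((rows (e :: h)).erase e.1.1) ×ˢ (univ : Finset (Fin L)) : Finset _))
    (χ : Fin L → Fin n) (hχ : Function.Injective χ)
    (hav : ∀ j, χ j ∉ (((rows (e :: h)).erase e.1.1) ×ˢ (univ : Finset (Fin L))).image φ₁)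
    (hE : ∀ j, edgeAt e φ₁ ψ (χ j) j ∈ H') (hL : h.length + 1 < L) :
    ∃ (φ' : ℕ × Fin L → Fin n) (ψ' : ℕ → Fin L), Impl (e :: h) H' φ' ψ' := by
  obtain ⟨j₀, -, hj₀⟩ := exists_mem_notMem_of_card_lt_card
    (s := (range (h.length + 1)).image ψ) (t := (univ : Finset (Fin L)))
    (lt_of_le_of_lt card_image_le (by simpa using hL))
  let ψ' := Function.update ψ (h.length + 1) j₀
  let φ' : ℕ × Fin L → Fin n := fun p => if p.1 = e.1.1 then χ p.2 else φ₁ p
  have h2 : ∀ a ≤ h.length, ψ' a = ψ a := fun a ha => Function.update_of_ne (by omega) _ _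
  have h3 : ∀ v ∈ rows h, ∀ j, φ' (v, j) = φ (v, j) := by
    intro v hv j
    have : v ≠ e.1.1 := fun h0 => he.2.1 (h0 ▸ hv)
    simp only [φ', if_neg this, h1 v hv]
  refine ⟨φ', ψ', ?_, pinj_update hI.pinj hj₀, ?_, ?_⟩
  · intro p hp p' hp' hpp
    simp only [coe_product, coe_univ, Set.mem_prod, mem_coe, Set.mem_univ, and_true] at hp hp'
    by_cases a1 : p.1 = e.1.1 <;> by_cases a2 : p'.1 = e.1.1
    · simp only [φ', if_pos a1, if_pos a2] at hpp
      exact Prod.ext (a1.trans a2.symm) (hχ hpp)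
    · simp only [φ', if_pos a1, if_neg a2] at hpp
      exact absurd (mem_image.2 ⟨p', by simp [a2, hp'], hpp.symm⟩) (hav p.2)
    · simp only [φ', if_neg a1, if_pos a2] at hpp
      exact absurd (mem_image.2 ⟨p, by simp [a1, hp], hpp⟩) (hav p'.2)
    · simp only [φ', if_neg a1, if_neg a2] at hpp
      exact hi (by simp [a1, hp]) (by simp [a2, hp']) hpp
  · intro e₀ he₀ x hx a ha
    rcases List.mem_cons.1 he₀ with rfl | he₀
    · rcases mem_verts.1 hx with rfl | ⟨i, rfl⟩
      · rw [he.1] at ha; cases ha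
      · exact (he.2.2 i a ha).1.trans (by simp)
    · exact (hI.bd e₀ he₀ x hx a ha).trans (by simp)
  · intro e₀ he₀ j
    rcases List.mem_cons.1 he₀ with rfl | he₀
    · refine ⟨_, hE j, ?_⟩
      rw [← verts_map]
      congr 1
      refine Prod.ext ?_ (funext fun i => ?_)
      · simp [edgeAt, rv, φ', he.1]
      · simp only [edgeAt]
        rcases hx : (e₀.2 i).2 with _ | a
        · by_cases h0 : (e₀.2 i).1 = e₀.1.1
          · simp [rv, φ', hx, h0]
          · simp [rv, φ', hx, h0]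
        · obtain ⟨ha, h0⟩ := he.2.2 i a hx
          simp [rv, φ', hx, h0, h2 a ha]
    · obtain ⟨e', he', hv'⟩ := hI.edge e₀ he₀ j
      exact ⟨e', hH _ he', by rw [hv', rv_congr hI h3 h2 he₀]⟩

end Pool.Agent.Lib.SRH
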