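import Pool.Agent.Lib.SRH.Batch

/-! `liminf p_n ≥ val_N` for every `N`. -/

namespace Pool.Agent.Lib.SRH

open Finset Filter

theorem pow_sub_pow_le_srh {a b : ℝ} (hb : 0 ≤ b) (hba : b ≤ a) (ha : a ≤ 1) (B : ℕ) :
    a ^ B - b ^ B ≤ B * (a - b) := by
  induction B with
  | zero => simp
  | succ B ih =>
    have h1 : b ^ B ≤ 1 := pow_le_one₀ hb (hba.trans ha)
    have h2 : b ^ B ≤ a ^ B := pow_le_pow_left₀ hb hba B
    have h3 : a ^ (B + 1) - b ^ (B + 1) = a * (a ^ B - b ^ B) + b ^ B * (a - b) := by ring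
    rw [h3]
    push_cast
    nlinarith [mul_le_mul_of_nonneg_right ha (sub_nonneg.2 h2),
      mul_le_mul_of_nonneg_right h1 (sub_nonneg.2 hba)]

theorem one_sub_pow_exp {z : ℝ} (h0 : 0 ≤ z) (h1 : z ≤ 1) (B : ℕ) :
    |(1 - z) ^ B - Real.exp (-(B * z))| ≤ B * z ^ 2 := by
  have a1 : 1 - z ≤ Real.exp (-z) := by linarith [Real.add_one_le_exp (-z)]
  have a2 : Real.exp (-z) ≤ 1 := Real.exp_le_one_iff.2 (by linarith)
  have a3 := Real.abs_exp_sub_one_sub_id_le (x := -z) (by rwa [abs_neg, abs_of_nonneg h0])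
  have a4 : Real.exp (-(B * z)) = Real.exp (-z) ^ B := by
    rw [← Real.exp_nat_mul]; congr 1; ring
  have a5 := pow_sub_pow_le_srh (by linarith) a1 a2 B
  have a6 : (1 - z) ^ B ≤ Real.exp (-z) ^ B := pow_le_pow_left₀ (by linarith) a1 B
  rw [a4, abs_sub_comm, abs_of_nonneg (by linarith)]
  have a7 : Real.exp (-z) - (1 - z) ≤ z ^ 2 := by
    have := (abs_le.1 a3).2
    nlinarith
  exact a5.trans (mul_le_mul_of_nonneg_left a7 (Nat.cast_nonneg _))

theorem exp_neg_lip {a b : ℝ} (ha : 0 ≤ a) (hab : a ≤ b) :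
    |Real.exp (-a) - Real.exp (-b)| ≤ b - a := by
  have h1 : Real.exp (-b) = Real.exp (-a) * Real.exp (-(b - a)) := by
    rw [← Real.exp_add]; congr 1; ring
  have h2 : Real.exp (-a) ≤ 1 := Real.exp_le_one_iff.2 (by linarith)
  have h3 : Real.exp (-(b - a)) ≤ 1 := Real.exp_le_one_iff.2 (by linarith)
  have h4 := Real.add_one_le_exp (-(b - a))
  have h5 := Real.exp_pos (-a)
  rw [h1, abs_of_nonneg (by nlinarith)]
  nlinarith

theorem ev_sqrt (C : ℝ) : ∀ᶠ n : ℕ in atTop, C ≤ √(n : ℝ) :=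
  (Real.tendsto_sqrt_atTop.comp tendsto_natCast_atTop_atTop).eventually_ge_atTop C

theorem kappa_le {x y A A0 u B S' : ℝ} (hx : 0 < x) (hy : 0 < y) (hA : 0 ≤ A) (hA0 : A ≤ A0)
    (hS : 0 ≤ S') (hu0 : 0 ≤ u) (huB : u ≤ B) (hB : B ≤ x * y) (hu : x * y - S' ≤ u) :
    B * (A * u / y ^ 2) ^ 2 + (A * x ^ 2 - B * (A * u / y ^ 2))
      ≤ (A0 ^ 2 * x ^ 3 + 2 * A0 * x * S') / y := by
  have h1 : A * u / y ^ 2 ≤ A0 * x / y := by
    rw [div_le_div_iff₀ (by positivity) hy]
    have : A * u ≤ A0 * (x * y) := mul_le_mul hA0 (huB.trans hB) hu0 (hA.trans hA0)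
    nlinarith
  have h2 : B * (A * u / y ^ 2) ^ 2 ≤ A0 ^ 2 * x ^ 3 / y := by
    calc _ ≤ (x * y) * (A0 * x / y) ^ 2 :=
          mul_le_mul hB (pow_le_pow_left₀ (by positivity) h1 2) (by positivity) (by positivity)
      _ = _ := by field_simp
  have h3 : (x * y) ^ 2 - B * u ≤ 2 * (x * y) * S' := by
    nlinarith [mul_le_mul_of_nonneg_right huB hu0, mul_pos hx hy]
  have h4 : A * x ^ 2 - B * (A * u / y ^ 2) = A * ((x * y) ^ 2 - B * u) / y ^ 2 := by
    field_simp
  have h5 : A * ((x * y) ^ 2 - B * u) / y ^ 2 ≤ 2 * A0 * x * S' / y := by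
    rw [div_le_div_iff₀ (by positivity) hy]
    have : A * ((x * y) ^ 2 - B * u) ≤ A0 * (2 * (x * y) * S') :=
      (mul_le_mul_of_nonneg_left h3 hA).trans
        (mul_le_mul_of_nonneg_right hA0 (by positivity))
    nlinarith
  rw [h4, add_div]
  linarith

theorem impl_nil {k n L : ℕ} (φ : ℕ × Fin L → Fin n) (ψ : ℕ → Fin L) :
    Impl ([] : List (Rd k Ent)) [] φ ψ :=
  ⟨by simp [rows], by simp, by simp, by simp⟩

theorem lower {V : Type} [Fintype V] (E : Finset (Finset V)) (k N : ℕ) {c ε : ℝ} (hc : 0 < c)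
    (hε : 0 < ε) : ∀ᶠ n : ℕ in atTop,
      val E ((c / N) ^ 2) N ([] : List (Rd k Ent)) - ε ≤ optProb E k n ⌊c * √(n : ℝ)⌋₊ := by
  rcases Nat.eq_zero_or_pos N with rfl | hN
  · filter_upwards [eventually_ge_atTop (Fintype.card V * (1 + Fintype.card V)),
      eventually_gt_atTop 0] with n h1 hn
    have := val_le_bell E (k := k) (L := 1 + Fintype.card V) (q := (c / (0 : ℕ)) ^ 2) (κ := 0) hn
      (by positivity) 0 0 (by omega) (by simpa using h1) (fun _ _ t ht => absurd ht (by omega))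
      0 [] [] (fun _ => ⟨0, hn⟩) (fun _ => ⟨0, by omega⟩) rfl (impl_nil _ _)
    rw [optProb_eq]
    have h2 := bell_mono E hn (Nat.zero_le ⌊c * √(n : ℝ)⌋₊) ([] : List (Rd k (Fin n)))
    simp only [Nat.cast_zero, zero_mul, sub_zero] at this ⊢
    linarith
  have hNR : (0 : ℝ) < N := by exact_mod_cast hN
  set x := c / N with hx
  have hx0 : 0 < x := by positivity
  obtain ⟨S, hS⟩ := exists_nat_ge (2 * N * ((k + 2) * x ^ 2) / ε)
  set A0 : ℝ := (k + 1) * N with hA0
  set C1 : ℝ := A0 ^ 2 * x ^ 3 + 2 * A0 * x * (1 + S + N) + x * A0 * N with hC1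
  filter_upwards [ev_sqrt ((S + N + 2 + Fintype.card V) / x), ev_sqrt ((A0 + Fintype.card V) * x),
    ev_sqrt (2 * N * C1 / ε), eventually_gt_atTop 0] with n h1 h2 h3 hn
  have hnR : (0 : ℝ) < n := by exact_mod_cast hn
  set y := √(n : ℝ) with hy
  have hy0 : 0 < y := Real.sqrt_pos.2 hnR
  have hyn : y ^ 2 = n := Real.sq_sqrt hnR.le
  set B := ⌊c * y⌋₊ / N with hB
  have hBf : B = ⌊x * y⌋₊ := by
    rw [hB, ← Nat.floor_div_natCast]; congr 1; rw [hx]; ring
  have hB1 : (B : ℝ) ≤ x * y := by rw [hBf]; exact Nat.floor_le (by positivity)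
  have hB2 : x * y < B + 1 := by rw [hBf]; exact Nat.lt_floor_add_one _
  rw [div_le_iff₀ hx0] at h1
  have hB3 : S + N + 1 + Fintype.card V ≤ B := by
    have : ((S + N + 1 + Fintype.card V : ℕ) : ℝ) < B := by push_cast; nlinarith
    exact_mod_cast this.le
  obtain ⟨L, hL⟩ : ∃ L, B = L + S := ⟨B - S, by omega⟩
  have hLB : (L : ℝ) ≤ B := by exact_mod_cast (by omega : L ≤ B)
  have hcn : ((k + 1) * N + Fintype.card V) * L ≤ n := by
    have : (((k + 1) * N + Fintype.card V) * L : ℝ) ≤ n := by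
      rw [← hyn]
      have a1 : (0 : ℝ) ≤ A0 + Fintype.card V := by positivity
      calc _ ≤ (A0 + Fintype.card V) * (x * y) := mul_le_mul_of_nonneg_left (hLB.trans hB1) a1
        _ = (A0 + Fintype.card V) * x * y := by ring
        _ ≤ y * y := mul_le_mul_of_nonneg_right h2 hy0.le
        _ = y ^ 2 := by ring
    exact_mod_cast this
  have main := val_le_bell E (k := k) (L := L) (q := x ^ 2) (κ := ε / N) hn (by positivity) N S
    (by omega) hcn (by
      intro A hA t ht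
      rw [← hL]
      have hAr : (A : ℝ) ≤ A0 := by rw [hA0]; exact_mod_cast hA
      have hAn : (0 : ℝ) ≤ A := Nat.cast_nonneg _
      set u : ℝ := ((L - (t + 1) : ℕ) : ℝ) with hu
      have hu0 : 0 ≤ u := Nat.cast_nonneg _
      have huB : u ≤ B := by rw [hu]; exact_mod_cast (by omega : L - (t + 1) ≤ B)
      have hu1 : x * y - (1 + S + N) ≤ u := by
        have : (B : ℝ) ≤ ((L - (t + 1) + S + N : ℕ) : ℝ) := by
          exact_mod_cast (by omega : B ≤ L - (t + 1) + S + N)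
        push_cast at this
        rw [hu]; linarith
      have k1 := kappa_le hx0 hy0 hAn hAr (by positivity) hu0 huB hB1 hu1
      rw [hyn] at k1
      have z1 : (A : ℝ) * u / n ≤ 1 := by
        rw [div_le_one hnR, ← hyn]
        have : (A : ℝ) * u ≤ A0 * (x * y) := mul_le_mul hAr (huB.trans hB1) hu0 (by positivity)
        have : A0 * x ≤ y := le_trans (by
          have : (0 : ℝ) ≤ Fintype.card V * x := by positivity
          nlinarith) h2
        nlinarith
      have k2 := one_sub_pow_exp (z := A * u / n) (by positivity) z1 B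
      have z2 : B * (A * u / n) ≤ (A : ℝ) * x ^ 2 := by
        rw [← mul_div_assoc, div_le_iff₀ hnR, ← hyn]
        have : (B : ℝ) * u ≤ (x * y) * (x * y) := mul_le_mul hB1 (huB.trans hB1) hu0 (by positivity)
        nlinarith
      have k3 := exp_neg_lip (a := B * (A * u / n)) (by positivity) z2
      have k4 := abs_sub_le ((1 - (A : ℝ) * u / n) ^ B) (Real.exp (-(B * (A * u / n))))
        (Real.exp (-(A * x ^ 2)))
      have k5 : (B : ℝ) * (((k + 1) * N * N + (k + 2) * L : ℝ) / n) / (S + 1)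
          ≤ x * A0 * N / y + (k + 2) * x ^ 2 / (S + 1) := by
        have b1 : (B : ℝ) * (((k + 1) * N * N + (k + 2) * L : ℝ) / n)
            ≤ x * A0 * N / y + (k + 2) * x ^ 2 := by
          calc _ ≤ (x * y) * (((k + 1) * N * N + (k + 2) * (x * y) : ℝ) / n) := by
                gcongr
                exact hLB.trans hB1
            _ = _ := by rw [← hyn, hA0]; field_simp
        have b2 : x * A0 * N / y / (S + 1) ≤ x * A0 * N / y :=
          div_le_self (by positivity) (by linarith [Nat.cast_nonneg (α := ℝ) S])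
        calc _ ≤ (x * A0 * N / y + (k + 2) * x ^ 2) / (S + 1) := by gcongr
          _ ≤ _ := by rw [add_div]; linarith
      have k6 : (k + 2) * x ^ 2 / (S + 1) ≤ ε / N / 2 := by
        rw [div_le_iff₀ hε] at hS
        rw [div_le_iff₀ (by positivity), div_div, div_mul_eq_mul_div, le_div_iff₀ (by positivity)]
        nlinarith
      have k7 : C1 / y ≤ ε / N / 2 := by
        rw [div_le_iff₀ hε] at h3
        rw [div_div, div_le_div_iff₀ hy0 (by positivity)]
        nlinarith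
      rw [hC1, add_div] at k7
      linarith) N [] [] (fun _ => ⟨0, hn⟩) (fun _ => ⟨0, by omega⟩) (by simp) (impl_nil _ _)
  rw [optProb_eq]
  have h4 : N * (L + S) ≤ ⌊c * y⌋₊ := by rw [← hL, hB]; exact Nat.mul_div_le _ _
  have h5 := bell_mono E hn h4 ([] : List (Rd k (Fin n)))
  rw [mul_div_cancel₀ _ hNR.ne'] at main
  linarith

end Pool.Agent.Lib.SRH
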