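import Pool.Agent.Lib.SRH.Upper

/-! The two bounds together. -/

namespace Pool.Agent.Lib.SRH

open Finset Filter Topology

theorem card_setA {k m : ℕ} (σ : List (Rd k (Fin m)) → Fin m → Fin k → Fin m) (D R M : ℕ)
    (l : List (Fin m)) : (setA σ D R M l).card ≤ (k + 1) * M * (1 + (k + 1) * D) ^ (R + R) := by
  unfold setA
  split_ifs with h
  · exact (card_ball σ _ _ _ _).trans (Nat.mul_le_mul_right _
      ((card_evv σ l).trans (Nat.mul_le_mul_left _ h)))
  · simp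

theorem card_setB {k m : ℕ} (σ : List (Rd k (Fin m)) → Fin m → Fin k → Fin m) {D D' R J : ℕ}
    (h : J * (1 + (k + 1) * D) ^ R ≤ D') (l : List (Fin m)) :
    (setB σ D D' R l).card * J ≤ (k + 1) * l.length := by
  set X := (univ.filter fun x => D' ≤ deg σ l x) with hX
  have h1 : X.card * D' ≤ (k + 1) * l.length := by
    refine le_trans ?_ (sum_deg σ l)
    calc X.card * D' = ∑ x ∈ X, D' := by simp
      _ ≤ ∑ x ∈ X, deg σ l x := sum_le_sum fun x hx => (mem_filter.1 hx).2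
      _ ≤ _ := sum_le_sum_of_subset (subset_univ _)
  calc _ ≤ X.card * (1 + (k + 1) * D) ^ R * J := Nat.mul_le_mul_right _ (card_ball σ _ _ _ _)
    _ = X.card * (J * (1 + (k + 1) * D) ^ R) := by ring
    _ ≤ X.card * D' := Nat.mul_le_mul_left _ h
    _ ≤ _ := h1

theorem one_sub_exp_srh {z w : ℝ} (hw : w ≤ z) (hz : 0 ≤ z) :
    |1 - Real.exp (-z) - w| ≤ z ^ 2 + (z - w) := by
  have h1 := Real.add_one_le_exp (-z)
  have h2 : Real.exp (-z) ≤ 1 - z + z ^ 2 := by
    rcases le_total z 1 with h | h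
    · have := (abs_le.1 (Real.abs_exp_sub_one_sub_id_le (x := -z)
        (by rwa [abs_neg, abs_of_nonneg hz]))).2
      nlinarith
    · have : Real.exp (-z) ≤ 1 := Real.exp_le_one_iff.2 (by linarith)
      nlinarith
  rw [abs_le]
  constructor <;> nlinarith [sq_nonneg z]

theorem exists_nat_pos_ge (a : ℝ) {δ : ℝ} (hδ : 0 < δ) : ∃ M : ℕ, 0 < M ∧ a ≤ δ * M := by
  obtain ⟨M, hM⟩ := exists_nat_ge (a / δ)
  rw [div_le_iff₀ hδ] at hM
  exact ⟨M + 1, Nat.succ_pos _, by push_cast; nlinarith⟩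

theorem bdd_val {V : Type} (E : Finset (Finset V)) (k : ℕ) (c : ℝ) :
    BddAbove (Set.range fun N : ℕ => val E ((c / N) ^ 2) N ([] : List (Rd k Ent))) :=
  ⟨1, by rintro _ ⟨N, rfl⟩; exact (val_mem E (by positivity) _ _).2⟩

theorem upper {V : Type} [Fintype V] (E : Finset (Finset V)) (k : ℕ) {c ε : ℝ} (hc : 0 < c)
    (hε : 0 < ε) : ∀ᶠ m : ℕ in atTop, optProb E k m ⌊c * √(m : ℝ)⌋₊ ≤
      (⨆ N : ℕ, val E ((c / N) ^ 2) N ([] : List (Rd k Ent))) + ε := by
  classical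
  set δ := ε / 6 with hδ
  have hδ0 : 0 < δ := by positivity
  obtain ⟨M, hM0, hM⟩ := exists_nat_pos_ge ((k + 1) * c ^ 2) hδ0
  obtain ⟨R, hR0, hR⟩ := exists_nat_pos_ge (M * Fintype.card V ^ 2) hδ0
  obtain ⟨K, hK0, hK⟩ := exists_nat_pos_ge (M * Fintype.card V) hδ0
  let D : ℕ → ℕ := fun i => Nat.rec 1 (fun _ d => M * (1 + (k + 1) * d) ^ R + d) i
  have hDs : ∀ i, D (i + 1) = M * (1 + (k + 1) * D i) ^ R + D i := fun _ => rfl
  have hD : Monotone D := monotone_nat_of_le_succ fun i => by rw [hDs]; omega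
  set C : ℝ := (((k + 1) * M * (1 + (k + 1) * D K) ^ (R + R) : ℕ) : ℝ) with hC
  set sv := ⨆ N : ℕ, val E ((c / N) ^ 2) N ([] : List (Rd k Ent)) with hsv
  filter_upwards [ev_sqrt ((k + 1) * c + 1), ev_sqrt (2 / c), ev_sqrt (c * C / δ),
    ev_sqrt ((2 * (k + 1) ^ 2 * c ^ 3 + 2 * (k + 1) * c) / δ), eventually_gt_atTop 0]
    with m h1 h2 h3 h4 hm
  have hmR : (0 : ℝ) < m := by exact_mod_cast hm
  set y := √(m : ℝ) with hy
  have hy0 : 0 < y := Real.sqrt_pos.2 hmR
  have hym : y ^ 2 = m := Real.sq_sqrt hmR.le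
  set T := ⌊c * y⌋₊ with hT
  have hT1 : (T : ℝ) ≤ c * y := Nat.floor_le (by positivity)
  have hT2 : c * y < T + 1 := Nat.lt_floor_add_one _
  rw [div_le_iff₀ hc] at h2
  rw [div_le_iff₀ hδ0] at h3 h4
  have hT3 : c * y ≤ 2 * T := by nlinarith
  have hT0 : (0 : ℝ) < T := by nlinarith
  have hTT : (T : ℝ) * T ≤ c ^ 2 * m := by rw [← hym]; nlinarith
  have hTm : (k + 1) * T < m := by
    have : ((k + 1) * T : ℝ) < m := by
      rw [← hym]
      have : ((k + 1) * T : ℝ) ≤ (k + 1) * (c * y) := mul_le_mul_of_nonneg_left hT1 (by positivity)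
      nlinarith
    exact_mod_cast this
  set κ : ℝ := ((k + 1) * c ^ 2 / T) ^ 2 + (k + 1) * T * ((c / T) ^ 2 - 1 / m) with hκ
  have hq : 1 / (m : ℝ) ≤ (c / T) ^ 2 := by
    rw [div_pow, div_le_div_iff₀ hmR (by positivity)]; nlinarith
  have hκA : ∀ A ≤ (k + 1) * T, |1 - Real.exp (-((A : ℝ) * (c / T) ^ 2)) - A / m| ≤ κ := by
    intro A hA
    have hA1 : (A : ℝ) ≤ (k + 1) * T := by exact_mod_cast hA
    have hA0 : (0 : ℝ) ≤ A := Nat.cast_nonneg _
    refine (one_sub_exp_srh (by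
      rw [div_eq_mul_one_div]; exact mul_le_mul_of_nonneg_left hq hA0) (by positivity)).trans ?_
    refine add_le_add (pow_le_pow_left₀ (by positivity) ?_ 2) ?_
    · calc _ ≤ (k + 1) * T * (c / T) ^ 2 := mul_le_mul_of_nonneg_right hA1 (by positivity)
        _ = _ := by field_simp
    · calc _ = A * ((c / T) ^ 2 - 1 / m) := by ring
        _ ≤ _ := mul_le_mul_of_nonneg_right hA1 (sub_nonneg.2 hq)
  have hTκ : T * κ ≤ δ := by
    have a1 : T * κ = (k + 1) ^ 2 * c ^ 4 / T + (k + 1) * (((c * y) ^ 2 - T ^ 2) / y ^ 2) := by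
      rw [hκ, ← hym]; field_simp
    have a2 : (k + 1) ^ 2 * c ^ 4 / T ≤ 2 * (k + 1) ^ 2 * c ^ 3 / y := by
      rw [div_le_div_iff₀ hT0 hy0]
      have : (0 : ℝ) ≤ (k + 1) ^ 2 * c ^ 3 := by positivity
      nlinarith [mul_le_mul_of_nonneg_left hT3 this]
    have a3 : ((c * y) ^ 2 - T ^ 2) / y ^ 2 ≤ 2 * c / y := by
      rw [div_le_div_iff₀ (by positivity) hy0]
      have : (c * y) ^ 2 - T ^ 2 ≤ 2 * (c * y) := by nlinarith
      nlinarith
    have a4 : (2 * (k + 1) ^ 2 * c ^ 3 + 2 * (k + 1) * c) / y ≤ δ := by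
      rw [div_le_iff₀ hy0]; linarith
    have a5 : ((k : ℝ) + 1) * (2 * c / y) = 2 * (k + 1) * c / y := by ring
    have a6 := mul_le_mul_of_nonneg_left a3 (by positivity : (0 : ℝ) ≤ k + 1)
    rw [add_div] at a4
    linarith
  obtain ⟨σ, hσ⟩ := exists_best E (k := k) (n := m) T
  have e1 := bell_eq_avg E σ hσ T [] (by simp)
  have e2 := avg_mono (pointwise E σ D hD Nat.one_pos K R M hM0) T []
  simp only [avg_mul, avg_add, avg_sum, avg_const hm] at e2
  rw [← e1] at e2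
  have hMR : (0 : ℝ) < M := by exact_mod_cast hM0
  have b0 : avg T (fun l => (cnt (tch σ) l : ℝ)) [] ≤ δ * M := by
    refine (avg_cnt hm (tch σ) (T := T) (b := (k + 1) * T) (fun l hl => ?_) T [] (by simp)).trans ?_
    · exact_mod_cast (card_tch σ l).trans (Nat.mul_le_mul_left _ hl.le)
    · simp only [cnt, Nat.cast_zero, zero_add]
      rw [div_le_iff₀ hmR]
      nlinarith [mul_le_mul_of_nonneg_left hTT (by positivity : (0 : ℝ) ≤ k + 1),
        mul_le_mul_of_nonneg_right hM hmR.le]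
  have b1 : ∀ i ∈ range K, avg T (fun l => (cnt (setA σ (D i) R M) l : ℝ)) [] ≤ δ := by
    intro i hi
    refine (avg_cnt hm _ (T := T) (b := C) (fun l _ => ?_) T [] (by simp)).trans ?_
    · rw [hC]
      have : D i ≤ D K := hD (mem_range.1 hi).le
      exact_mod_cast (card_setA σ (D i) R M l).trans (by gcongr)
    · simp only [cnt, Nat.cast_zero, zero_add]
      rw [div_le_iff₀ hmR, ← hym]
      have : (0 : ℝ) ≤ C := Nat.cast_nonneg _
      nlinarith [mul_le_mul_of_nonneg_right hT1 this, mul_le_mul_of_nonneg_right h3 hy0.le]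
  have b2 : ∀ i, avg T (fun l => (cnt (setB σ (D i) (D (i + 1)) R) l : ℝ)) [] ≤ δ := by
    intro i
    refine (avg_cnt hm _ (T := T) (b := (k + 1) * T / M) (fun l hl => ?_) T [] (by simp)).trans ?_
    · rw [le_div_iff₀ hMR]
      exact_mod_cast (card_setB σ (J := M) (by rw [hDs]; omega) l).trans
        (Nat.mul_le_mul_left _ hl.le)
    · simp only [cnt, Nat.cast_zero, zero_add]
      rw [div_le_iff₀ hmR, ← mul_div_assoc, div_le_iff₀ hMR]
      nlinarith [mul_le_mul_of_nonneg_left hTT (by positivity : (0 : ℝ) ≤ k + 1),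
        mul_le_mul_of_nonneg_right hM hmR.le]
  have b3 : ∀ i r, avg T (fun l => if GWin E (gm σ (D i) r l) then 1 else 0) [] ≤ sv + δ := by
    intro i r
    have := avg_le_val E σ (D := D i) (ρ := r) (lt_of_lt_of_le Nat.one_pos (hD (Nat.zero_le i)))
      (q := (c / T) ^ 2) (by positivity) hTm hκA T [] (by simp)
    have h5 := le_ciSup (bdd_val E k c) T
    simp only [gm] at this
    linarith
  have b4 : (∑ i ∈ range K, ∑ r ∈ range R,
      (avg T (fun l => if GWin E (gm σ (D i) r l) then 1 else 0) [] +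
        (avg T (fun l => (cnt (setA σ (D i) R M) l : ℝ)) [] +
          avg T (fun l => (cnt (setB σ (D i) (D (i + 1)) R) l : ℝ)) [])))
      ≤ K * R * (sv + 3 * δ) := by
    calc _ ≤ ∑ i ∈ range K, ∑ r ∈ range R, (sv + 3 * δ) :=
          sum_le_sum fun i hi => sum_le_sum fun r _ => by linarith [b1 i hi, b2 i, b3 i r]
      _ = _ := by simp; ring
  have hKR : (0 : ℝ) < K * R := by positivity
  have b5 : (K * R / M : ℝ) * avg T (fun l => (cnt (tch σ) l : ℝ)) [] ≤ K * R * δ := by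
    calc _ ≤ (K * R / M : ℝ) * (δ * M) := mul_le_mul_of_nonneg_left b0 (by positivity)
      _ = _ := by field_simp
  have b6 := mul_le_mul_of_nonneg_left hR (Nat.cast_nonneg (α := ℝ) K)
  have b7 := mul_le_mul_of_nonneg_left hK (Nat.cast_nonneg (α := ℝ) R)
  rw [optProb_eq]
  refine le_of_mul_le_mul_left ?_ hKR
  have : ε = 6 * δ := by rw [hδ]; ring
  rw [this]
  simp only [hist] at e2
  nlinarith

theorem tendsto_opt {V : Type} [Fintype V] (E : Finset (Finset V)) (k : ℕ) {c : ℝ} (hc : 0 < c) :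
    Tendsto (fun n : ℕ => optProb E k n ⌊c * √(n : ℝ)⌋₊) atTop
      (𝓝 (⨆ N : ℕ, val E ((c / N) ^ 2) N ([] : List (Rd k Ent)))) := by
  refine Metric.tendsto_nhds.2 fun ε hε => ?_
  obtain ⟨N, hN⟩ := exists_lt_of_lt_ciSup
    (f := fun N : ℕ => val E ((c / N) ^ 2) N ([] : List (Rd k Ent)))
    (sub_lt_self _ (half_pos hε))
  filter_upwards [upper E k hc (half_pos hε), lower E k N hc (half_pos hε)] with n h1 h2
  rw [Real.dist_eq, abs_lt]
  constructor <;> linarith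

end Pool.Agent.Lib.SRH
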