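import Pool.Agent.Lib.SRH.Bell

/-! A run of a deterministic strategy, its link graph, labels and image in the cloning game. -/

namespace Pool.Agent.Lib.SRH

open Finset

variable {k m : ℕ} (σ : List (Rd k (Fin m)) → Fin m → Fin k → Fin m)

/-- History produced by the drawn vertices `l` (newest first). -/
def hist : List (Fin m) → List (Rd k (Fin m))
  | [] => []
  | u :: l => (u, σ (hist l) u) :: hist l

/-- Vertices of the edge added when `u` is drawn after `l`. -/
def vs (l : List (Fin m)) (u : Fin m) : Finset (Fin m) := verts (u, σ (hist σ l) u)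

/-- Touched vertices. -/
def tch : List (Fin m) → Finset (Fin m)
  | [] => ∅
  | u :: l => vs σ l u ∪ tch l

/-- Degree. -/
def deg : List (Fin m) → Fin m → ℕ
  | [], _ => 0
  | u :: l, x => deg l x + if x ∈ vs σ l u then 1 else 0

/-- Closed neighbourhood in the link graph. -/
def nb (D : ℕ) : List (Fin m) → Fin m → Finset (Fin m)
  | [], x => {x}
  | u :: l, x => nb D l x ∪
      if x ∈ vs σ l u ∧ deg σ l x < D then (vs σ l u).filter fun y => deg σ l y < D else ∅

/-- Ball in the link graph. -/
def ball (D : ℕ) (l : List (Fin m)) (r : ℕ) (X : Finset (Fin m)) : Finset (Fin m) :=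
  (fun Y : Finset (Fin m) => Y.biUnion (nb σ D l))^[r] X

/-- Labels: the copy index of a vertex once it is no longer read in parallel. -/
def lab (D r : ℕ) : List (Fin m) → Fin m → Option ℕ
  | [], _ => none
  | u :: l, x =>
      if (lab D r l x).isSome then lab D r l x
      else if u ∈ tch σ l then
        (if x ∈ ball σ D l r {u} then some (l.length + 1)
          else if x ∈ vs σ l u then some 0 else none)
      else if x ∈ vs σ l u ∧ D ≤ deg σ l x then some 0 else none

/-- The move of the cloning game. -/
def mv (D r : ℕ) (l : List (Fin m)) (u : Fin m) : Rd k Ent :=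
  (((u : ℕ), if u ∈ tch σ l then some (l.length + 1) else none),
    fun i => ((σ (hist σ l) u i : ℕ), lab σ D r (u :: l) (σ (hist σ l) u i)))

/-- The position of the cloning game. -/
def gm (D r : ℕ) : List (Fin m) → List (Rd k Ent)
  | [] => []
  | u :: l => mv σ D r l u :: gm D r l

/-- Vertices of the edges of event rounds. -/
def evv : List (Fin m) → Finset (Fin m)
  | [] => ∅
  | u :: l => if u ∈ tch σ l then vs σ l u ∪ evv l else evv l

/-- The event rounds. -/
def evs : List (Fin m) → Finset (Fin m × List (Fin m))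
  | [] => ∅
  | u :: l => if u ∈ tch σ l then insert (u, l) (evs l) else evs l

/-- Number of rounds whose drawn vertex lies in a predictable set. -/
def cnt (P : List (Fin m) → Finset (Fin m)) : List (Fin m) → ℕ
  | [] => 0
  | u :: l => cnt P l + if u ∈ P l then 1 else 0

theorem self_mem_vs (l : List (Fin m)) (u : Fin m) : u ∈ vs σ l u := mem_insert_self _ _

theorem tail_mem_vs (l : List (Fin m)) (u : Fin m) (i : Fin k) : σ (hist σ l) u i ∈ vs σ l u :=
  mem_verts.2 (Or.inr ⟨i, rfl⟩)

theorem card_vs (l : List (Fin m)) (u : Fin m) : (vs σ l u).card ≤ k + 1 := card_verts _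

theorem length_hist (l : List (Fin m)) : (hist σ l).length = l.length := by
  induction l with
  | nil => rfl
  | cons u l ih => simp [hist, ih]

theorem length_gm (D r : ℕ) (l : List (Fin m)) : (gm σ D r l).length = l.length := by
  induction l with
  | nil => rfl
  | cons u l ih => simp [gm, ih]

theorem card_tch (l : List (Fin m)) : (tch σ l).card ≤ (k + 1) * l.length := by
  induction l with
  | nil => simp [tch]
  | cons u l ih =>
    simp only [tch, List.length_cons]
    have := card_union_le (vs σ l u) (tch σ l)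
    have := card_vs σ l u
    nlinarith

theorem rows_gm (D r : ℕ) (l : List (Fin m)) :
    rows (gm σ D r l) = (tch σ l).image Fin.val := by
  induction l with
  | nil => simp [gm, rows, tch]
  | cons u l ih =>
    simp only [gm, rows, tch, ih, image_union]
    congr 1
    simp only [mv, vs, verts, image_insert, image_image]
    rfl

theorem deg_zero {l : List (Fin m)} {x : Fin m} (hx : x ∉ tch σ l) : deg σ l x = 0 := by
  induction l with
  | nil => rfl
  | cons u l ih =>
    simp only [tch, mem_union, not_or] at hx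
    simp [deg, hx.1, ih hx.2]

theorem sum_deg (l : List (Fin m)) : ∑ x, deg σ l x ≤ (k + 1) * l.length := by
  induction l with
  | nil => simp [deg]
  | cons u l ih =>
    simp only [deg, sum_add_distrib, List.length_cons, sum_ite_mem, univ_inter, sum_const,
      smul_eq_mul, mul_one]
    have := card_vs σ l u
    nlinarith

theorem self_mem_nb (D : ℕ) (l : List (Fin m)) (x : Fin m) : x ∈ nb σ D l x := by
  induction l with
  | nil => simp [nb]
  | cons u l ih => exact mem_union_left _ ih

theorem nb_symm {D : ℕ} {l : List (Fin m)} {x y : Fin m} (h : y ∈ nb σ D l x) :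
    x ∈ nb σ D l y := by
  induction l with
  | nil => simp only [nb, mem_singleton] at h ⊢; exact h.symm
  | cons u l ih =>
    simp only [nb, mem_union] at h ⊢
    rcases h with h | h
    · exact Or.inl (ih h)
    · split_ifs at h with hx
      · rw [mem_filter] at h
        right
        rw [if_pos h, mem_filter]
        exact hx
      · simp at h

theorem nb_tch {D : ℕ} {l : List (Fin m)} {x y : Fin m} (h : y ∈ nb σ D l x) :
    y = x ∨ y ∈ tch σ l := by
  induction l with
  | nil => simp only [nb, mem_singleton] at h; exact Or.inl h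
  | cons u l ih =>
    simp only [nb, mem_union, tch] at h ⊢
    rcases h with h | h
    · rcases ih h with h | h
      · exact Or.inl h
      · exact Or.inr (Or.inr h)
    · split_ifs at h with hx
      · exact Or.inr (Or.inl (mem_filter.1 h).1)
      · simp at h

theorem card_nb (D : ℕ) (l : List (Fin m)) (x : Fin m) :
    (nb σ D l x).card ≤ 1 + (k + 1) * min (deg σ l x) D := by
  induction l with
  | nil => simp [nb]
  | cons u l ih =>
    simp only [nb, deg]
    refine (card_union_le _ _).trans ?_
    by_cases hx : x ∈ vs σ l u ∧ deg σ l x < D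
    · rw [if_pos hx, if_pos hx.1]
      have h1 := (card_filter_le (vs σ l u) fun y => deg σ l y < D).trans (card_vs σ l u)
      rw [min_eq_left hx.2.le] at ih
      rw [min_eq_left (by omega)]
      nlinarith
    · rw [if_neg hx, card_empty, add_zero]
      refine ih.trans (Nat.add_le_add_left (Nat.mul_le_mul_left _ ?_) _)
      exact min_le_min_right _ (Nat.le_add_right _ _)

theorem ball_succ (D : ℕ) (l : List (Fin m)) (r : ℕ) (X : Finset (Fin m)) :
    ball σ D l (r + 1) X = (ball σ D l r X).biUnion (nb σ D l) :=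
  Function.iterate_succ_apply' _ _ _

theorem ball_add (D : ℕ) (l : List (Fin m)) (r s : ℕ) (X : Finset (Fin m)) :
    ball σ D l (r + s) X = ball σ D l r (ball σ D l s X) :=
  Function.iterate_add_apply _ _ _ _

theorem ball_mono {D : ℕ} {l l' : List (Fin m)} (h : ∀ x, nb σ D l x ⊆ nb σ D l' x) (r : ℕ)
    {X Y : Finset (Fin m)} (hXY : X ⊆ Y) : ball σ D l r X ⊆ ball σ D l' r Y := by
  induction r with
  | zero => exact hXY
  | succ r ih =>
    rw [ball_succ, ball_succ]
    exact (biUnion_subset_biUnion_of_subset_left _ ih).trans (biUnion_mono fun x _ => h x)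

theorem ball_le {D : ℕ} {l : List (Fin m)} {r s : ℕ} (h : r ≤ s) (X : Finset (Fin m)) :
    ball σ D l r X ⊆ ball σ D l s X := by
  induction h with
  | refl => exact Subset.rfl
  | step _ ih =>
    refine ih.trans ?_
    rw [ball_succ]
    exact fun x hx => mem_biUnion.2 ⟨x, hx, self_mem_nb σ D l x⟩

theorem sub_ball (D : ℕ) (l : List (Fin m)) (r : ℕ) (X : Finset (Fin m)) : X ⊆ ball σ D l r X :=
  ball_le σ (Nat.zero_le r) X

theorem card_ball (D : ℕ) (l : List (Fin m)) (r : ℕ) (X : Finset (Fin m)) :
    (ball σ D l r X).card ≤ X.card * (1 + (k + 1) * D) ^ r := by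
  induction r with
  | zero => simp [ball]
  | succ r ih =>
    rw [ball_succ, pow_succ, ← mul_assoc]
    refine (card_biUnion_le_card_mul _ _ _ fun x _ => (card_nb σ D l x).trans
      (Nat.add_le_add_left (Nat.mul_le_mul_left _ (min_le_right _ _)) _)).trans ?_
    exact Nat.mul_le_mul_right _ ih

theorem ball_dual {D : ℕ} {l : List (Fin m)} (r : ℕ) : ∀ {X Y : Finset (Fin m)},
    (∃ y ∈ Y, y ∈ ball σ D l r X) → ∃ x ∈ X, x ∈ ball σ D l r Y := by
  induction r with
  | zero => rintro X Y ⟨y, h1, h2⟩; exact ⟨y, h2, h1⟩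
  | succ r ih =>
    rintro X Y ⟨y, h1, h2⟩
    rw [ball_succ] at h2
    obtain ⟨z, hz, hy⟩ := mem_biUnion.1 h2
    obtain ⟨x, hx, hx2⟩ := ih (X := X) (Y := Y.biUnion (nb σ D l))
      ⟨z, mem_biUnion.2 ⟨y, h1, nb_symm σ hy⟩, hz⟩
    exact ⟨x, hx, hx2⟩

theorem ball_tch {D : ℕ} {l : List (Fin m)} (r : ℕ) {X : Finset (Fin m)} (hX : X ⊆ tch σ l) :
    ball σ D l r X ⊆ tch σ l := by
  induction r with
  | zero => exact hX
  | succ r ih =>
    rw [ball_succ]
    intro y hy
    obtain ⟨z, hz, hy⟩ := mem_biUnion.1 hy
    rcases nb_tch σ hy with rfl | h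
    · exact ih hz
    · exact h

theorem nb_suffix {D : ℕ} {l l' : List (Fin m)} (h : l <:+ l') (x : Fin m) :
    nb σ D l x ⊆ nb σ D l' x := by
  induction l' with
  | nil => rw [List.suffix_nil.1 h]
  | cons u l' ih =>
    rcases List.suffix_cons_iff.1 h with rfl | h
    · exact Subset.rfl
    · exact (ih h).trans subset_union_left

theorem lab_some {D r : ℕ} {l : List (Fin m)} {x : Fin m} {a : ℕ} (h : lab σ D r l x = some a) :
    a ≤ l.length ∧ x ∈ tch σ l := by
  induction l with
  | nil => simp [lab] at h
  | cons u l ih =>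
    simp only [lab, tch, mem_union, List.length_cons] at h ⊢
    split_ifs at h with h1 h2 h3 h4 h5
    · exact ⟨(ih h).1.trans (Nat.le_succ _), Or.inr (ih h).2⟩
    · cases h
      exact ⟨le_rfl, Or.inr (ball_tch σ r (by simpa using h2) h3)⟩
    · cases h; exact ⟨Nat.zero_le _, Or.inl h4⟩
    · cases h; exact ⟨Nat.zero_le _, Or.inl h5.1⟩

theorem lab_suffix {D r : ℕ} {l l' : List (Fin m)} (h : l <:+ l') {x : Fin m} {a : ℕ}
    (ha : lab σ D r l x = some a) : lab σ D r l' x = some a := by
  induction l' with
  | nil => rw [List.suffix_nil.1 h] at ha; exact ha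
  | cons u l' ih =>
    rcases List.suffix_cons_iff.1 h with rfl | h
    · exact ha
    · simp [lab, ih h]

theorem lab_fresh {D r : ℕ} (hD : 0 < D) {l : List (Fin m)} {u : Fin m} (hu : u ∉ tch σ l) :
    lab σ D r (u :: l) u = none := by
  have h1 : lab σ D r l u = none := by
    rcases h : lab σ D r l u with _ | a
    · rfl
    · exact absurd (lab_some σ h).2 hu
  have h2 := deg_zero σ hu
  simp only [lab, h1, Option.isSome_none, Bool.false_eq_true, if_false, if_neg hu]
  rw [if_neg (by omega)]

theorem mv_fresh {D r : ℕ} (hD : 0 < D) {l : List (Fin m)} {u : Fin m} (hu : u ∉ tch σ l) :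
    Fresh (gm σ D r l) (mv σ D r l u) := by
  refine ⟨by simp [mv, hu], ?_, fun i a ha => ⟨?_, fun h0 => ?_⟩⟩
  · rw [rows_gm]
    simp only [mv, mem_image, not_exists, not_and]
    intro x hx h0
    exact hu (Fin.ext h0 ▸ hx)
  · rw [length_gm]
    simp only [mv, lab, if_neg hu] at ha
    split_ifs at ha with h1 h2
    · exact (lab_some σ ha).1
    · cases ha; exact Nat.zero_le _
  · simp only [mv] at ha h0
    rw [Fin.ext h0, lab_fresh σ hD hu] at ha
    cases ha

theorem mv_hit {D r : ℕ} {l : List (Fin m)} {u : Fin m} (hu : u ∈ tch σ l) :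
    Hit (gm σ D r l) u (mv σ D r l u) := by
  refine ⟨by simp [mv, hu, length_gm], fun i => ?_⟩
  rw [length_gm]
  rcases h : lab σ D r (u :: l) (σ (hist σ l) u i) with _ | a
  · simp only [lab, if_pos hu, if_pos (tail_mem_vs σ l u i)] at h
    split_ifs at h with h1 h2
    rw [h] at h1; simp at h1
  · exact ⟨a, (lab_some σ h).1, h⟩

theorem lab_getD (D r : ℕ) (l : List (Fin m)) (u x : Fin m) :
    (lab σ D r (u :: l) x).getD 0 =
      if u ∈ tch σ l ∧ x ∈ ball σ D l r {u} ∧ lab σ D r l x = none then l.length + 1
      else (lab σ D r l x).getD 0 := by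
  rcases h : lab σ D r l x with _ | a
  · simp only [lab, h, Option.isSome_none, Bool.false_eq_true, if_false]
    split_ifs <;> simp_all
  · simp [lab, h]

theorem mem_hist {l : List (Fin m)} {e : Rd k (Fin m)} (he : e ∈ hist σ l) :
    ∃ u l', (u :: l') <:+ l ∧ verts e = vs σ l' u := by
  induction l with
  | nil => simp [hist] at he
  | cons u l ih =>
    rcases List.mem_cons.1 he with rfl | he
    · exact ⟨u, l, List.suffix_refl _, rfl⟩
    · obtain ⟨u', l', h1, h2⟩ := ih he
      exact ⟨u', l', h1.trans (List.suffix_cons _ _), h2⟩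

theorem mv_mem {D r : ℕ} {l l' : List (Fin m)} {u : Fin m} (h : (u :: l') <:+ l) :
    mv σ D r l' u ∈ gm σ D r l := by
  induction l with
  | nil => simp at h
  | cons a l ih =>
    rcases List.suffix_cons_iff.1 h with h | h
    · cases h; exact List.mem_cons_self
    · exact List.mem_cons_of_mem _ (ih h)

/-- Consistency: an uncut, unlabelled copy of the target survives in the cloning game. -/
theorem gwin_of {V : Type} (E : Finset (Finset V)) {D r : ℕ} (hD : 0 < D) {l : List (Fin m)}
    (f : V ↪ Fin m) (hf : ∀ g ∈ E, ∃ e ∈ hist σ l, g.map f = verts e)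
    (H1 : ∀ u l', (u :: l') <:+ l → u ∈ tch σ l' → ∀ x y, f y ∈ nb σ D l' (f x) →
      f x ∈ ball σ D l' r {u} → f y ∈ ball σ D l' r {u})
    (H2 : ∀ u l', (u :: l') <:+ l → u ∈ tch σ l' → ∀ y, f y ∈ ball σ D l' r {u} →
      lab σ D r l' (f y) = none) : GWin E (gm σ D r l) := by
  have pair : ∀ (x y : V) (l₀ l₁ : List (Fin m)), l₀ <:+ l₁ → l₁ <:+ l →
      f y ∈ nb σ D l₀ (f x) → (lab σ D r l₀ (f x)).getD 0 = (lab σ D r l₀ (f y)).getD 0 →
      (lab σ D r l₁ (f x)).getD 0 = (lab σ D r l₁ (f y)).getD 0 := by
    intro x y l₀ l₁ h01 h1 hxy h0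
    induction l₁ with
    | nil => rfl
    | cons u l₁ ih =>
      rcases List.suffix_cons_iff.1 h01 with rfl | h01
      · exact h0
      · have ih' := ih h01 ((List.suffix_cons _ _).trans h1)
        have hn := nb_suffix σ h01 _ hxy
        rw [lab_getD, lab_getD]
        by_cases hu : u ∈ tch σ l₁
        · by_cases hx : f x ∈ ball σ D l₁ r {u}
          · have hy := H1 u l₁ h1 hu x y hn hx
            rw [if_pos ⟨hu, hx, H2 u l₁ h1 hu x hx⟩, if_pos ⟨hu, hy, H2 u l₁ h1 hu y hy⟩]
          · have hy : f y ∉ ball σ D l₁ r {u} := fun hy =>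
              hx (H1 u l₁ h1 hu y x (nb_symm σ hn) hy)
            rw [if_neg fun h => hx h.2.1, if_neg fun h => hy h.2.1, ih']
        · rw [if_neg fun h => hu h.1, if_neg fun h => hu h.1, ih']
  let P : Fin m → ℕ × ℕ := fun x => (x, (lab σ D r l x).getD 0)
  have hinj : Function.Injective fun x => P (f x) := fun x y h =>
    f.injective (Fin.ext (congrArg Prod.fst h))
  refine ⟨⟨_, hinj⟩, fun g hg => ?_⟩
  obtain ⟨e, he, hge⟩ := hf g hg
  obtain ⟨u, l', hs, hv⟩ := mem_hist σ he
  rw [hv] at hge
  have hex : ∀ x ∈ vs σ l' u, ∃ y, f y = x := fun x hx => by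
    rw [← hge] at hx
    obtain ⟨y, -, hy⟩ := mem_map.1 hx
    exact ⟨y, hy⟩
  obtain ⟨yu, hyu⟩ := hex u (self_mem_vs σ l' u)
  refine ⟨_, mv_mem σ hs, (lab σ D r l u).getD 0, ?_⟩
  have h1 : g.map ⟨_, hinj⟩ = (g.map f).image P := by
    rw [map_eq_image, map_eq_image, image_image]; rfl
  have h2 : mv σ D r l' u = (((u : ℕ), lab σ D r (u :: l') u),
      fun i => ((σ (hist σ l') u i : ℕ), lab σ D r (u :: l') (σ (hist σ l') u i))) := by
    simp only [mv]
    congr 2
    by_cases hu : u ∈ tch σ l'
    · have hb : u ∈ ball σ D l' r {u} := sub_ball σ D l' r _ (mem_singleton_self _)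
      have := H2 u l' hs hu yu (hyu ▸ hb)
      rw [hyu] at this
      simp [lab, this, hu, hb]
    · rw [if_neg hu, lab_fresh σ hD hu]
  have h3 : verts (mv σ D r l' u)
      = (vs σ l' u).image fun x : Fin m => ((x : ℕ), lab σ D r (u :: l') x) := by
    rw [h2]
    simp only [vs, verts, image_insert, image_image]
    rfl
  rw [h1, hge, h3, image_image]
  refine image_congr fun x hx => ?_
  have hx' : x ∈ vs σ l' u := hx
  simp only [Function.comp, P, inst, Prod.mk.injEq, true_and]
  rcases hl : lab σ D r (u :: l') x with _ | a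
  · simp only [Option.getD_none]
    obtain ⟨y, rfl⟩ := hex x hx'
    have hu : u ∉ tch σ l' := by
      intro hu
      simp only [lab, if_pos hu, if_pos hx'] at hl
      split_ifs at hl with a1 a2
      rw [hl] at a1; simp at a1
    have hd : deg σ l' (f y) < D := by
      by_contra hd
      simp only [lab, if_neg hu, if_pos (And.intro hx' (not_lt.1 hd))] at hl
      split_ifs at hl with a1
      rw [hl] at a1; simp at a1
    have hn : f yu ∈ nb σ D (u :: l') (f y) := by
      simp only [nb, mem_union]
      right
      rw [if_pos ⟨hx', hd⟩, mem_filter, hyu, deg_zero σ hu]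
      exact ⟨self_mem_vs σ l' u, hD⟩
    have := pair y yu (u :: l') l hs (List.suffix_refl _) hn (by
      rw [hl, hyu, lab_fresh σ hD hu])
    rwa [hyu] at this
  · rw [lab_suffix σ hs hl]; rfl

theorem lab_why {D r : ℕ} {l : List (Fin m)} {y : Fin m} (h : lab σ D r l y ≠ none) :
    D ≤ deg σ l y ∨ y ∈ ball σ D l r (evv σ l) := by
  induction l with
  | nil => simp [lab] at h
  | cons u l ih =>
    have hm : ∀ x, nb σ D l x ⊆ nb σ D (u :: l) x := fun x => subset_union_left
    by_cases h0 : lab σ D r l y = none
    · simp only [lab, h0, Option.isSome_none, Bool.false_eq_true, if_false] at h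
      by_cases hu : u ∈ tch σ l
      · right
        simp only [evv, if_pos hu] at h ⊢
        split_ifs at h with h1 h2
        · exact ball_mono σ hm r (by simp [self_mem_vs]) h1
        · exact sub_ball σ _ _ _ _ (mem_union_left _ h2)
        · exact absurd rfl h
      · rw [if_neg hu] at h
        split_ifs at h with h1
        · exact Or.inl (h1.2.trans (Nat.le_add_right _ _))
        · exact absurd rfl h
    · rcases ih h0 with h1 | h1
      · exact Or.inl (h1.trans (Nat.le_add_right _ _))
      · refine Or.inr (ball_mono σ hm r ?_ h1)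
        simp only [evv]
        split_ifs
        · exact subset_union_right
        · exact Subset.rfl

theorem card_evv (l : List (Fin m)) : (evv σ l).card ≤ (k + 1) * cnt (tch σ) l := by
  induction l with
  | nil => simp [evv]
  | cons u l ih =>
    simp only [evv, cnt]
    split_ifs
    · have := card_union_le (vs σ l u) (evv σ l)
      have := card_vs σ l u
      nlinarith
    · simpa using ih

theorem card_evs (l : List (Fin m)) : (evs σ l).card ≤ cnt (tch σ) l := by
  induction l with
  | nil => simp [evs]
  | cons u l ih =>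
    simp only [evs, cnt]
    split_ifs
    · exact (card_insert_le _ _).trans (by omega)
    · simpa using ih

theorem mem_evs {l l' : List (Fin m)} {u : Fin m} (h : (u :: l') <:+ l) (hu : u ∈ tch σ l') :
    (u, l') ∈ evs σ l := by
  induction l with
  | nil => simp at h
  | cons a l ih =>
    simp only [evs]
    rcases List.suffix_cons_iff.1 h with h | h
    · cases h; rw [if_pos hu]; exact mem_insert_self _ _
    · split_ifs
      · exact mem_insert_of_mem (ih h)
      · exact ih h

theorem cnt_suffix (P : List (Fin m) → Finset (Fin m)) {l l' : List (Fin m)} (h : l <:+ l') :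
    cnt P l ≤ cnt P l' := by
  induction l' with
  | nil => rw [List.suffix_nil.1 h]
  | cons u l' ih =>
    rcases List.suffix_cons_iff.1 h with rfl | h
    · exact le_rfl
    · exact (ih h).trans (Nat.le_add_right _ _)

theorem cnt_pos (P : List (Fin m) → Finset (Fin m)) {l l' : List (Fin m)} {u : Fin m}
    (h : (u :: l') <:+ l) (hu : u ∈ P l') : 1 ≤ cnt P l :=
  le_trans (by simp [cnt, hu]) (cnt_suffix P h)

end Pool.Agent.Lib.SRH
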