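import Pool.Agent.Lib.SRH.Run
import Pool.Agent.Lib.SRH.Lower

/-! `limsup p_m ≤ sup_N val_N`. -/

namespace Pool.Agent.Lib.SRH

open Finset Filter

variable {k m : ℕ}

/-- Expectation of `F` after `r` further uniform draws. -/
noncomputable def avg : ℕ → (List (Fin m) → ℝ) → List (Fin m) → ℝ
  | 0, F, l => F l
  | r + 1, F, l => (∑ u, avg r F (u :: l)) / m

theorem avg_mono {F G : List (Fin m) → ℝ} (h : ∀ l, F l ≤ G l) :
    ∀ (r : ℕ) (l : List (Fin m)), avg r F l ≤ avg r G l
  | 0, l => h l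
  | r + 1, l => div_le_div_of_nonneg_right (sum_le_sum fun u _ => avg_mono h r (u :: l))
      (Nat.cast_nonneg _)

theorem avg_add (F G : List (Fin m) → ℝ) :
    ∀ (r : ℕ) (l : List (Fin m)), avg r (fun l => F l + G l) l = avg r F l + avg r G l
  | 0, _ => rfl
  | r + 1, l => by simp only [avg, avg_add F G r, sum_add_distrib, add_div]

theorem avg_mul (a : ℝ) (F : List (Fin m) → ℝ) :
    ∀ (r : ℕ) (l : List (Fin m)), avg r (fun l => a * F l) l = a * avg r F l
  | 0, _ => rfl
  | r + 1, l => by simp only [avg, avg_mul a F r, ← mul_sum, mul_div_assoc]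

theorem avg_const (hm : 0 < m) (a : ℝ) :
    ∀ (r : ℕ) (l : List (Fin m)), avg r (fun _ => a) l = a
  | 0, _ => rfl
  | r + 1, l => by
    have : (m : ℝ) ≠ 0 := by positivity
    simp only [avg, avg_const hm a r, sum_const, card_univ, Fintype.card_fin, nsmul_eq_mul]
    field_simp

theorem avg_sum {ι : Type} (s : Finset ι) (F : ι → List (Fin m) → ℝ) :
    ∀ (r : ℕ) (l : List (Fin m)), avg r (fun l => ∑ i ∈ s, F i l) l = ∑ i ∈ s, avg r (F i) l
  | 0, _ => rfl
  | r + 1, l => by simp only [avg, avg_sum s F r, sum_comm (s := univ) (t := s), sum_div]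

theorem avg_cnt (hm : 0 < m) (P : List (Fin m) → Finset (Fin m)) {T : ℕ} {b : ℝ}
    (hP : ∀ l : List (Fin m), l.length < T → ((P l).card : ℝ) ≤ b) :
    ∀ (r : ℕ) (l : List (Fin m)), l.length + r ≤ T →
      avg r (fun l => (cnt P l : ℝ)) l ≤ cnt P l + r * b / m
  | 0, l, _ => by simp [avg]
  | r + 1, l, hl => by
    have hmR : (0 : ℝ) < m := by exact_mod_cast hm
    simp only [avg]
    rw [div_le_iff₀ hmR]
    calc _ ≤ ∑ u : Fin m, ((cnt P l + r * b / m : ℝ) + if u ∈ P l then 1 else 0) := by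
          refine sum_le_sum fun u _ => (avg_cnt hm P hP r (u :: l) (by simp; omega)).trans ?_
          simp only [cnt]
          split_ifs <;> push_cast <;> linarith
      _ = m * (cnt P l + r * b / m) + (P l).card := by
          rw [sum_add_distrib, sum_ite_mem, univ_inter]; simp [mul_add]
      _ ≤ _ := by
          have := hP l (by omega)
          have h2 : ((cnt P l : ℝ) + ((r + 1 : ℕ) : ℝ) * b / m) * m
              = m * (cnt P l + r * b / m) + b := by push_cast; field_simp; ring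
          rw [h2]; linarith

variable {V : Type} (E : Finset (Finset V)) (σ : List (Rd k (Fin m)) → Fin m → Fin k → Fin m)

open Classical in
theorem bell_eq_avg {T : ℕ} (hσ : ∀ (r : ℕ) (h : List (Rd k (Fin m))), h.length + (r + 1) = T →
      bell E (r + 1) h = (∑ u, bell E r ((u, σ h u) :: h)) / m) :
    ∀ (r : ℕ) (l : List (Fin m)), l.length + r = T →
      bell E r (hist σ l) = avg r (fun l => if Win E (hist σ l) then 1 else 0) l
  | 0, l, _ => by simp [bell, avg]
  | r + 1, l, hl => by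
    rw [hσ r _ (by rw [length_hist]; exact hl)]
    simp only [avg]
    congr 1
    exact sum_congr rfl fun u _ => bell_eq_avg hσ r (u :: l) (by simp; omega)

open Classical in
theorem avg_le_val {D ρ T : ℕ} (hD : 0 < D) {q κ : ℝ} (hq : 0 ≤ q) (hT : (k + 1) * T < m)
    (hκ : ∀ A ≤ (k + 1) * T, |1 - Real.exp (-((A : ℝ) * q)) - A / m| ≤ κ) :
    ∀ (r : ℕ) (l : List (Fin m)), l.length + r = T →
      avg r (fun l => if GWin E (gm σ D ρ l) then 1 else 0) l - r * κ ≤ val E q r (gm σ D ρ l)
  | 0, l, _ => by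
    simp only [avg, val, GWin, Nat.cast_zero, zero_mul, sub_zero]
    exact le_of_eq (by congr)
  | r + 1, l, hl => by
    have hm : 0 < m := by omega
    have hmR : (0 : ℝ) < m := by exact_mod_cast hm
    set W : Fin m → ℝ := fun u => avg r (fun l => if GWin E (gm σ D ρ l) then 1 else 0) (u :: l)
      with hW
    have ih : ∀ u, W u - r * κ ≤ val E q r (mv σ D ρ l u :: gm σ D ρ l) := fun u =>
      avg_le_val hD hq hT hκ r (u :: l) (by simp; omega)
    have hAc : (rows (gm σ D ρ l)).card = (tch σ l).card := by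
      rw [rows_gm, card_image_of_injective _ Fin.val_injective]
    have hA : (tch σ l).card ≤ (k + 1) * T :=
      (card_tch σ l).trans (Nat.mul_le_mul_left _ (by omega))
    have hk := hκ _ hA
    simp only [val, avg]
    rw [hAc]
    set A : ℝ := ((tch σ l).card : ℝ) with hAdef
    have hA0 : 0 ≤ A := Nat.cast_nonneg _
    set a := Real.exp (-(A * q)) with ha
    set PF := ⨆ e : {e // Fresh (gm σ D ρ l) e}, val E q r (e.1 :: gm σ D ρ l) with hPF
    set SH := ∑ v ∈ rows (gm σ D ρ l),
      ⨆ e : {e // Hit (gm σ D ρ l) v e}, val E q r (e.1 :: gm σ D ρ l) with hSH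
    have hPF0 : 0 ≤ PF := Real.iSup_nonneg fun e => (val_mem E hq r _).1
    have hPF1 : PF ≤ 1 := ciSup_le fun e => (val_mem E hq r _).2
    have hSH0 : 0 ≤ SH := sum_nonneg fun v _ => Real.iSup_nonneg fun e => (val_mem E hq r _).1
    have hSH1 : SH ≤ A := by
      calc SH ≤ ∑ v ∈ rows (gm σ D ρ l), (1 : ℝ) :=
            sum_le_sum fun v _ => ciSup_le fun e => (val_mem E hq r _).2
        _ = A := by simp [hAdef, hAc]
    have h1 : ∑ u ∈ tch σ l, W u ≤ SH + A * (r * κ) := by
      rw [hSH, rows_gm, sum_image fun x _ y _ h => Fin.ext h, hAdef, ← nsmul_eq_mul, ← sum_const,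
        ← sum_add_distrib]
      refine sum_le_sum fun u hu => ?_
      have := le_ciSup (bdd_hit E hq r (gm σ D ρ l) u) ⟨_, mv_hit σ hu⟩
      have := ih u
      linarith
    have h2 : ∑ u ∈ (tch σ l)ᶜ, W u ≤ (m - A) * (PF + r * κ) := by
      have : ((tch σ l)ᶜ.card : ℝ) = m - A := by
        rw [card_compl, Fintype.card_fin, Nat.cast_sub (by omega)]
      rw [← this, ← nsmul_eq_mul, ← sum_const]
      refine sum_le_sum fun u hu => ?_
      have := le_ciSup (bdd_fresh E hq r (gm σ D ρ l)) ⟨_, mv_fresh σ hD (mem_compl.1 hu)⟩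
      have := ih u
      linarith
    have h3 : (∑ u, W u) / m ≤ A / m * (SH / A) + (1 - A / m) * PF + r * κ := by
      rw [div_le_iff₀ hmR, ← sum_add_sum_compl (tch σ l)]
      have : A / m * (SH / A) * m = SH := by
        rcases hA0.eq_or_lt with h0 | h0
        · have : SH = 0 := le_antisymm (h0 ▸ hSH1) hSH0
          simp [this]
        · field_simp
      have h4 : (A / m * (SH / A) + (1 - A / m) * PF + r * κ) * m
          = A / m * (SH / A) * m + (m - A) * PF + m * (r * κ) := by field_simp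
      rw [h4, this]
      nlinarith
    have hQ0 : 0 ≤ SH / A := div_nonneg hSH0 hA0
    have hQ1 : SH / A ≤ 1 := div_le_one_of_le₀ hSH1 hA0
    have hd : (1 - a - A / m) * (PF - SH / A) ≤ κ := by
      calc _ ≤ |(1 - a - A / m) * (PF - SH / A)| := le_abs_self _
        _ = |1 - a - A / m| * |PF - SH / A| := abs_mul _ _
        _ ≤ |1 - a - A / m| * 1 := mul_le_mul_of_nonneg_left
            (abs_le.2 ⟨by linarith, by linarith⟩) (abs_nonneg _)
        _ ≤ κ := by rwa [mul_one]
    have h5 : (1 - a) / A * SH = (1 - a) * (SH / A) := by ring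
    rw [h5]
    push_cast
    change (∑ u, W u) / m - _ ≤ _
    nlinarith

theorem card_unique {τ : Type} (T : Finset τ) (Θ : Finset ℕ) (Φ : ℕ → τ → Prop)
    [DecidablePred fun a => ∃ t ∈ T, Φ a t] (h : ∀ t ∈ T, ∀ a b, Φ a t → Φ b t → a = b) :
    (Θ.filter fun a => ∃ t ∈ T, Φ a t).card ≤ T.card := by
  classical
  calc _ ≤ (T.biUnion fun t => Θ.filter fun a => Φ a t).card := by
        refine card_le_card fun a ha => ?_
        obtain ⟨h1, t, ht, h2⟩ := mem_filter.1 ha
        exact mem_biUnion.2 ⟨t, ht, mem_filter.2 ⟨h1, h2⟩⟩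
    _ ≤ T.card * 1 := card_biUnion_le_card_mul _ _ _ fun t ht =>
        card_le_one.2 fun a ha b hb => h t ht a b (mem_filter.1 ha).2 (mem_filter.1 hb).2
    _ = _ := mul_one _

/-- First predictable set: near the edges of earlier events. -/
def setA (D R M : ℕ) (l : List (Fin m)) : Finset (Fin m) :=
  if cnt (tch σ) l ≤ M then ball σ D l (R + R) (evv σ l) else ∅

/-- Second predictable set: near a vertex of very large degree. -/
def setB (D D' R : ℕ) (l : List (Fin m)) : Finset (Fin m) :=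
  ball σ D l R (univ.filter fun x => D' ≤ deg σ l x)

open Classical in
theorem pointwise [Fintype V] (D : ℕ → ℕ) (hD : Monotone D) (hD0 : 0 < D 0) (K R M : ℕ)
    (hM : 0 < M) (l : List (Fin m)) :
    (K * R : ℝ) * (if Win E (hist σ l) then 1 else 0) ≤
      (∑ i ∈ range K, ∑ r ∈ range R, ((if GWin E (gm σ (D i) r l) then 1 else 0) +
        ((cnt (setA σ (D i) R M) l : ℝ) + cnt (setB σ (D i) (D (i + 1)) R) l))) +
      ((K * R / M : ℝ) * cnt (tch σ) l +
        (K * (M * Fintype.card V ^ 2) + R * (M * Fintype.card V))) := by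
  have hs : (0 : ℝ) ≤ ∑ i ∈ range K, ∑ r ∈ range R, ((if GWin E (gm σ (D i) r l) then 1 else 0) +
        ((cnt (setA σ (D i) R M) l : ℝ) + cnt (setB σ (D i) (D (i + 1)) R) l)) :=
    sum_nonneg fun _ _ => sum_nonneg fun _ _ => by split_ifs <;> positivity
  have hMR : (0 : ℝ) < M := by exact_mod_cast hM
  by_cases hw : Win E (hist σ l)
  swap
  · rw [if_neg hw, mul_zero]; positivity
  rw [if_pos hw, mul_one]
  by_cases hev : cnt (tch σ) l ≤ M
  swap
  · have h1 : (M : ℝ) ≤ cnt (tch σ) l := by exact_mod_cast (not_le.1 hev).le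
    have h2 : (K * R : ℝ) ≤ (K * R / M : ℝ) * cnt (tch σ) l := by
      rw [div_mul_eq_mul_div, le_div_iff₀ hMR]
      exact mul_le_mul_of_nonneg_left h1 (by positivity)
    have h3 : (0 : ℝ) ≤ K * (M * Fintype.card V ^ 2) + R * (M * Fintype.card V) := by positivity
    linarith
  obtain ⟨f, hf⟩ := hw
  let Φ1 : ℕ → ℕ → (Fin m × List (Fin m)) × V × V → Prop := fun i r t =>
    f t.2.2 ∈ nb σ (D i) t.1.2 (f t.2.1) ∧ f t.2.1 ∈ ball σ (D i) t.1.2 r {t.1.1} ∧
      f t.2.2 ∉ ball σ (D i) t.1.2 r {t.1.1}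
  let Φ2 : ℕ → (Fin m × List (Fin m)) × V → Prop := fun i t =>
    D i ≤ deg σ t.1.2 (f t.2) ∧ deg σ t.1.2 (f t.2) < D (i + 1)
  have key : ∀ i, ∀ r < R, (1 : ℝ) ≤ ((if GWin E (gm σ (D i) r l) then 1 else 0) +
        ((cnt (setA σ (D i) R M) l : ℝ) + cnt (setB σ (D i) (D (i + 1)) R) l)) +
      ((if ∃ t ∈ evs σ l ×ˢ (univ : Finset (V × V)), Φ1 i r t then 1 else 0) +
        if ∃ t ∈ evs σ l ×ˢ (univ : Finset V), Φ2 i t then 1 else 0) := by
    intro i r hr
    by_contra hc
    rw [not_le] at hc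
    have n1 : (0 : ℝ) ≤ cnt (setA σ (D i) R M) l := Nat.cast_nonneg _
    have n2 : (0 : ℝ) ≤ cnt (setB σ (D i) (D (i + 1)) R) l := Nat.cast_nonneg _
    have g1 : ¬GWin E (gm σ (D i) r l) := fun h => by
      rw [if_pos h] at hc; split_ifs at hc <;> linarith
    have g2 : ¬∃ t ∈ evs σ l ×ˢ (univ : Finset (V × V)), Φ1 i r t := fun h => by
      rw [if_pos h] at hc; split_ifs at hc <;> linarith
    have g3 : ¬∃ t ∈ evs σ l ×ˢ (univ : Finset V), Φ2 i t := fun h => by
      rw [if_pos h] at hc; split_ifs at hc <;> linarith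
    rw [if_neg g1, if_neg g2, if_neg g3] at hc
    have g4 : cnt (setA σ (D i) R M) l < 1 := by
      have : (cnt (setA σ (D i) R M) l : ℝ) < 1 := by linarith
      exact_mod_cast this
    have g5 : cnt (setB σ (D i) (D (i + 1)) R) l < 1 := by
      have : (cnt (setB σ (D i) (D (i + 1)) R) l : ℝ) < 1 := by linarith
      exact_mod_cast this
    refine g1 (gwin_of σ E (hD0.trans_le (hD (Nat.zero_le i))) f hf ?_ ?_)
    · intro u l' h1 h2 x y h3 h4
      by_contra h5
      exact g2 ⟨((u, l'), x, y), mem_product.2 ⟨mem_evs σ h1 h2, mem_univ _⟩, h3, h4, h5⟩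
    · intro u l' h1 h2 y h3
      by_contra h4
      have h5 := ball_le σ hr.le _ h3
      rcases lab_why σ h4 with h6 | h6
      · by_cases h7 : deg σ l' (f y) < D (i + 1)
        · exact g3 ⟨((u, l'), y), mem_product.2 ⟨mem_evs σ h1 h2, mem_univ _⟩, h6, h7⟩
        · obtain ⟨x, hx, hx2⟩ := ball_dual σ R (X := {u})
            (Y := univ.filter fun x => D (i + 1) ≤ deg σ l' x)
            ⟨f y, mem_filter.2 ⟨mem_univ _, not_lt.1 h7⟩, h5⟩
          rw [mem_singleton.1 hx] at hx2
          exact absurd (cnt_pos (setB σ (D i) (D (i + 1)) R) h1 hx2) (by omega)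
      · obtain ⟨x, hx, hx2⟩ := ball_dual σ R (X := {u}) (Y := ball σ (D i) l' R (evv σ l'))
          ⟨f y, ball_le σ hr.le _ h6, h5⟩
        rw [mem_singleton.1 hx, ← ball_add] at hx2
        have h8 : cnt (tch σ) l' ≤ M :=
          (cnt_suffix _ ((List.suffix_cons _ _).trans h1)).trans hev
        refine absurd (cnt_pos (setA σ (D i) R M) h1 ?_) (by omega)
        rwa [setA, if_pos h8]
  have hE : (evs σ l).card ≤ M := (card_evs σ l).trans hev
  have c1 : ∀ i, (∑ r ∈ range R,
      (if ∃ t ∈ evs σ l ×ˢ (univ : Finset (V × V)), Φ1 i r t then 1 else 0 : ℝ))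
        ≤ M * Fintype.card V ^ 2 := by
    intro i
    rw [sum_boole]
    have := card_unique (evs σ l ×ˢ (univ : Finset (V × V))) (range R) (Φ1 i) (by
      have aux : ∀ t a b, a < b → Φ1 i a t → ¬Φ1 i b t := fun t a b hab ha hb =>
        hb.2.2 (ball_le σ (Nat.succ_le_of_lt hab) _ (by
          rw [ball_succ]; exact mem_biUnion.2 ⟨_, ha.2.1, ha.1⟩))
      intro t _ a b ha hb
      rcases lt_trichotomy a b with h | h | h
      · exact absurd hb (aux t a b h ha)
      · exact h
      · exact absurd ha (aux t b a h hb))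
    rw [card_product, card_univ, Fintype.card_prod] at this
    have := this.trans (Nat.mul_le_mul_right _ hE)
    rw [sq]
    exact_mod_cast this
  have c2 : (∑ i ∈ range K, (if ∃ t ∈ evs σ l ×ˢ (univ : Finset V), Φ2 i t then 1 else 0 : ℝ))
      ≤ M * Fintype.card V := by
    rw [sum_boole]
    have := card_unique (evs σ l ×ˢ (univ : Finset V)) (range K) Φ2 (by
      have aux : ∀ t a b, a < b → Φ2 a t → ¬Φ2 b t := fun t a b hab ha hb =>
        absurd (ha.2.trans_le ((hD (Nat.succ_le_of_lt hab)).trans hb.1)) (lt_irrefl _)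
      intro t _ a b ha hb
      rcases lt_trichotomy a b with h | h | h
      · exact absurd hb (aux t a b h ha)
      · exact h
      · exact absurd ha (aux t b a h hb))
    rw [card_product, card_univ] at this
    exact_mod_cast this.trans (Nat.mul_le_mul_right _ hE)
  have h0 : (K * R : ℝ) = ∑ i ∈ range K, ∑ r ∈ range R, (1 : ℝ) := by simp
  have h1 := sum_le_sum (s := range K) fun i _ =>
    sum_le_sum (s := range R) fun r hr => key i r (mem_range.1 hr)
  rw [← h0] at h1
  simp only [sum_add_distrib (f := fun r => (if GWin E (gm σ (D _) r l) then (1 : ℝ) else 0) +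
    ((cnt (setA σ (D _) R M) l : ℝ) + cnt (setB σ (D _) (D (_ + 1)) R) l))] at h1
  rw [sum_add_distrib] at h1
  have h2 : (∑ i ∈ range K, ∑ r ∈ range R,
      ((if ∃ t ∈ evs σ l ×ˢ (univ : Finset (V × V)), Φ1 i r t then 1 else 0 : ℝ) +
        if ∃ t ∈ evs σ l ×ˢ (univ : Finset V), Φ2 i t then 1 else 0))
      ≤ K * (M * Fintype.card V ^ 2) + R * (M * Fintype.card V) := by
    simp only [sum_add_distrib, sum_const, card_range, nsmul_eq_mul]
    rw [← mul_sum]
    refine add_le_add ?_ (mul_le_mul_of_nonneg_left c2 (Nat.cast_nonneg _))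
    refine (sum_le_sum fun i _ => c1 i).trans ?_
    simp
  have h3 : (0 : ℝ) ≤ (K * R / M : ℝ) * cnt (tch σ) l := by positivity
  linarith

end Pool.Agent.Lib.SRH
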